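import Pool.Agent.H749R2.Hyp1

/-!
# Discs in parameter space without attracting cycles of period 1, 2
-/

set_option autoImplicit false
open Complex Metric Set Filter Topology
open N62a1eb23

namespace Pool.Agent.H749R2.Hyp

theorem pow_pred {M : Type*} [Monoid M] (y : M) {n : ℕ} (hn : 2 ≤ n) :
    y ^ (n - 1) = y ^ (n - 1 - 1) * y := by
  rw [← pow_succ]; congr 1; omega

/-- `c` is hyperbolic with an attracting cycle of period `1` or `2` (given by a periodic point of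
period `1` or `2` of multiplier of modulus `< 1`). -/
def Att2 (n : ℕ) (c : ℂ) : Prop :=
  ∃ m z, (m = 1 ∨ m = 2) ∧ IsAttractingCycle (fun z => z ^ n + c) m z

theorem low1 {n : ℕ} (hn : 2 ≤ n) {c : ℂ} (hno : ¬ Att2 n c) :
    1 < Real.exp 1 * (n * ‖c‖ ^ (n - 1)) := by
  by_contra h
  push Not at h
  obtain ⟨z, hz⟩ := P1 hn h
  exact hno ⟨1, z, Or.inl rfl, hz⟩

theorem low2' {n : ℕ} (hn : 2 ≤ n) {c : ℂ} (hno : ¬ Att2 n c) :
    1 / 8 ≤ (n * ‖c‖ ^ (n - 1)) ^ 2 * (‖1 + c ^ (n - 1)‖ + 2 / n) ^ (n - 1) := by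
  by_contra h
  push Not at h
  obtain ⟨z, hz⟩ := P2 hn (low1 hn hno).le h
  exact hno ⟨2, z, Or.inr rfl, hz⟩

theorem small_pow {n : ℕ} (hn : 64 ≤ n) : 18 * (n : ℝ) ^ 2 * (3 / 4) ^ (n - 1) < 1 := by
  induction n, hn using Nat.le_induction with
  | base => norm_num
  | succ n hn ih =>
    have hn' : (64:ℝ) ≤ n := by exact_mod_cast hn
    have h1 : ((n + 1 : ℕ) : ℝ) ^ 2 * (3 / 4) ≤ (n : ℝ) ^ 2 := by
      push_cast
      nlinarith
    have h2 : (3 / 4 : ℝ) ^ (n + 1 - 1) = (3 / 4) * (3 / 4) ^ (n - 1) := by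
      conv_lhs => rw [show n + 1 - 1 = (n - 1) + 1 by omega]
      rw [pow_succ]; ring
    rw [h2]
    have h3 : (0:ℝ) < (3 / 4) ^ (n - 1) := by positivity
    calc 18 * ((n + 1 : ℕ) : ℝ) ^ 2 * (3 / 4 * (3 / 4) ^ (n - 1))
        = 18 * (((n + 1 : ℕ) : ℝ) ^ 2 * (3 / 4)) * (3 / 4) ^ (n - 1) := by ring
      _ ≤ 18 * (n : ℝ) ^ 2 * (3 / 4) ^ (n - 1) := by gcongr
      _ < 1 := ih

theorem low2 {n : ℕ} (hn : 64 ≤ n) {c : ℂ} (hno : ¬ Att2 n c) :
    1 / 440 ≤ (n * ‖c‖ ^ (n - 1)) ^ 2 * ‖1 + c ^ (n - 1)‖ ^ (n - 1) := by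
  have h := low2' (by omega) hno
  have hn' : (64:ℝ) ≤ n := by exact_mod_cast hn
  have hn0 : (0:ℝ) < n := by linarith
  set t := ‖c‖ ^ (n - 1) with ht
  set ζ := ‖1 + c ^ (n - 1)‖ with hζ
  have hζ0 : 0 ≤ ζ := norm_nonneg _
  have ht0 : 0 ≤ t := by positivity
  rcases le_or_gt (1 / 2) ζ with h2 | h2
  · have h3 : (ζ + 2 / n) ^ (n - 1) ≤ ζ ^ (n - 1) * 55 := by
      have h4 : ζ + 2 / n ≤ ζ * (1 + 4 / n) := by
        have : 2 / (n:ℝ) ≤ ζ * (4 / n) := by
          calc 2 / (n:ℝ) = 1 / 2 * (4 / n) := by ring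
            _ ≤ ζ * (4 / n) := by gcongr
        linarith
      have h5 : (1 + 4 / (n:ℝ)) ^ (n - 1) ≤ 55 := by
        refine (one_add_div_pow_le (n := n) (θ := 4) (by omega) (by norm_num)
          (by omega)).trans ?_
        have h6 : Real.exp 4 = (Real.exp 1) ^ 4 := by
          rw [← Real.exp_nat_mul]; norm_num
        rw [h6]
        have he : Real.exp 1 < 2.7182818286 := Real.exp_one_lt_d9
        calc (Real.exp 1) ^ 4 ≤ 2.7182818286 ^ 4 := by gcongr
          _ ≤ 55 := by norm_num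
      calc (ζ + 2 / n) ^ (n - 1) ≤ (ζ * (1 + 4 / n)) ^ (n - 1) := by gcongr
        _ = ζ ^ (n - 1) * (1 + 4 / (n:ℝ)) ^ (n - 1) := mul_pow _ _ _
        _ ≤ ζ ^ (n - 1) * 55 := by gcongr
    have h7 : (1:ℝ) / 8 ≤ (n * t) ^ 2 * (ζ ^ (n - 1) * 55) := h.trans (by gcongr)
    linarith
  · exfalso
    have h3 : t ≤ 3 / 2 := by
      have : t = ‖(1 + c ^ (n - 1)) - 1‖ := by rw [add_sub_cancel_left, norm_pow]
      rw [this]
      refine (norm_sub_le _ _).trans ?_
      rw [norm_one]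
      linarith
    have h4 : ζ + 2 / n ≤ 3 / 4 := by
      have : 2 / (n:ℝ) ≤ 1 / 4 := by
        rw [div_le_div_iff₀ hn0 (by norm_num)]; linarith
      linarith
    have h5 : (n * t) ^ 2 * (ζ + 2 / n) ^ (n - 1) ≤ (n * (3 / 2)) ^ 2 * (3 / 4) ^ (n - 1) := by
      gcongr
    have h6 := small_pow hn
    nlinarith

/-- first Schwarz-Pick estimate -/
theorem sp1 {n : ℕ} (hn : 2 ≤ n) {c : ℂ} {r : ℝ} (hr : 0 < r)
    (hno : ∀ c' ∈ ball c r, ¬ Att2 n c') :
    ((n:ℝ) - 1) * r ≤ 2 * ‖c‖ * (1 + Real.log (n * ‖c‖ ^ (n - 1))) := by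
  have hn' : (2:ℝ) ≤ n := by exact_mod_cast hn
  have hn0 : (0:ℝ) < n := by linarith
  have hc := low1 hn (hno c (mem_ball_self hr))
  have hx0 : 0 < ‖c‖ := by
    rcases (norm_nonneg c).lt_or_eq with h0 | h0
    · exact h0
    · exfalso
      rw [← h0, zero_pow (by omega)] at hc
      norm_num at hc
  have h := log_schwarz (h := fun c => c ^ (n - 1)) (c := c) (m := 1 / (Real.exp 1 * n)) hr
    (by positivity) (by fun_prop) (by
      intro z hz
      have h1 := low1 hn (hno z hz)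
      rw [norm_pow, div_le_iff₀ (by positivity)]
      have : ‖z‖ ^ (n - 1) * (Real.exp 1 * n) = Real.exp 1 * (n * ‖z‖ ^ (n - 1)) := by ring
      rw [this]; exact h1.le)
  have hder : deriv (fun c : ℂ => c ^ (n - 1)) c = ((n - 1 : ℕ) : ℂ) * c ^ (n - 1 - 1) := by
    simp
  rw [hder] at h
  simp only [norm_mul, Complex.norm_natCast, norm_pow] at h
  rw [Nat.cast_sub (by omega), Nat.cast_one] at h
  have hsplit : ‖c‖ ^ (n - 1) = ‖c‖ * ‖c‖ ^ (n - 1 - 1) := by
    conv_lhs => rw [show n - 1 = (n - 1 - 1) + 1 by omega]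
    rw [pow_succ]; ring
  have hlog : Real.log (‖c‖ ^ (n - 1) / (1 / (Real.exp 1 * n)))
      = 1 + Real.log (n * ‖c‖ ^ (n - 1)) := by
    have : ‖c‖ ^ (n - 1) / (1 / (Real.exp 1 * n)) = Real.exp 1 * (n * ‖c‖ ^ (n - 1)) := by
      field_simp
    rw [this, Real.log_mul (Real.exp_pos 1).ne' (by positivity), Real.log_exp]
  rw [hlog] at h
  have hp : 0 < ‖c‖ ^ (n - 1 - 1) := by positivity
  have h2 : ‖c‖ ^ (n - 1 - 1) * (((n:ℝ) - 1) * r)
      ≤ ‖c‖ ^ (n - 1 - 1) * (2 * ‖c‖ * (1 + Real.log (n * ‖c‖ ^ (n - 1)))) := by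
    calc ‖c‖ ^ (n - 1 - 1) * (((n:ℝ) - 1) * r) = ((n:ℝ) - 1) * ‖c‖ ^ (n - 1 - 1) * r := by ring
      _ ≤ 2 * ‖c‖ ^ (n - 1) * (1 + Real.log (n * ‖c‖ ^ (n - 1))) := h
      _ = _ := by
        have : 2 * ‖c‖ ^ (n - 1) * (1 + Real.log (n * ‖c‖ ^ (n - 1)))
          = 2 * (‖c‖ * ‖c‖ ^ (n - 1 - 1)) * (1 + Real.log (n * ‖c‖ ^ (n - 1))) := by
            rw [← hsplit]
        rw [this]; ring
  exact le_of_mul_le_mul_left h2 hp

/-- second Schwarz-Pick estimate -/
theorem sp2 {n : ℕ} (hn : 64 ≤ n) {c : ℂ} {r : ℝ} (hr : 0 < r)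
    (hno : ∀ c' ∈ ball c r, ¬ Att2 n c') :
    ((n:ℝ) - 1) * ‖2 + (n + 1) * c ^ (n - 1)‖ * r ≤ 2 * ‖c‖ * ‖1 + c ^ (n - 1)‖ *
      Real.log (440 * ((n * ‖c‖ ^ (n - 1)) ^ 2 * ‖1 + c ^ (n - 1)‖ ^ (n - 1))) := by
  have hn' : (64:ℝ) ≤ n := by exact_mod_cast hn
  have hn0 : (0:ℝ) < n := by linarith
  have hc := low1 (by omega) (hno c (mem_ball_self hr))
  have hc2 := low2 hn (hno c (mem_ball_self hr))
  have hx0 : 0 < ‖c‖ := by
    rcases (norm_nonneg c).lt_or_eq with h0 | h0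
    · exact h0
    · exfalso
      rw [← h0, zero_pow (by omega)] at hc
      norm_num at hc
  have hζ0 : 0 < ‖1 + c ^ (n - 1)‖ := by
    rcases (norm_nonneg (1 + c ^ (n - 1))).lt_or_eq with h0 | h0
    · exact h0
    · exfalso
      rw [← h0, zero_pow (by omega)] at hc2
      norm_num at hc2
  have h := log_schwarz (h := fun c => (c ^ (n - 1)) ^ 2 * (1 + c ^ (n - 1)) ^ (n - 1)) (c := c)
    (m := 1 / (440 * (n:ℝ) ^ 2)) hr (by positivity) (by fun_prop) (by
      intro z hz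
      have h1 := low2 hn (hno z hz)
      rw [norm_mul, norm_pow, norm_pow, norm_pow, div_le_iff₀ (by positivity)]
      have : (‖z‖ ^ (n - 1)) ^ 2 * ‖1 + z ^ (n - 1)‖ ^ (n - 1) * (440 * (n:ℝ) ^ 2)
        = 440 * ((n * ‖z‖ ^ (n - 1)) ^ 2 * ‖1 + z ^ (n - 1)‖ ^ (n - 1)) := by ring
      rw [this]; linarith)
  have hpow : HasDerivAt (fun c : ℂ => c ^ (n - 1)) (((n - 1 : ℕ) : ℂ) * c ^ (n - 1 - 1)) c :=
    hasDerivAt_pow (n - 1) c
  have hder : HasDerivAt (fun c : ℂ => (c ^ (n - 1)) ^ 2 * (1 + c ^ (n - 1)) ^ (n - 1))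
      ((((n - 1 : ℕ) : ℂ) * c ^ (n - 1 - 1)) * (c ^ (n - 1) * (1 + c ^ (n - 1)) ^ (n - 1 - 1)) *
        (2 + (n + 1) * c ^ (n - 1))) c := by
    have h1 := (hpow.fun_pow 2).mul ((hpow.const_add 1).fun_pow (n - 1))
    refine h1.congr_deriv ?_
    have h2 := pow_pred (1 + c ^ (n - 1)) (n := n) (by omega)
    rw [h2]
    rw [Nat.cast_sub (by omega)]
    simp only [Nat.cast_one, Nat.cast_ofNat]
    ring
  rw [hder.deriv] at h
  simp only [norm_mul, Complex.norm_natCast, norm_pow] at h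
  rw [Nat.cast_sub (by omega), Nat.cast_one] at h
  have hsplit : ‖c‖ ^ (n - 1) = ‖c‖ * ‖c‖ ^ (n - 1 - 1) := by
    conv_lhs => rw [show n - 1 = (n - 1 - 1) + 1 by omega]
    rw [pow_succ]; ring
  have hsplit2 : ‖1 + c ^ (n - 1)‖ ^ (n - 1)
      = ‖1 + c ^ (n - 1)‖ * ‖1 + c ^ (n - 1)‖ ^ (n - 1 - 1) := by
    rw [pow_pred ‖1 + c ^ (n - 1)‖ (n := n) (by omega), mul_comm]
  set x := ‖c‖ with hx
  set ζ := ‖1 + c ^ (n - 1)‖ with hζ
  have hlog : (x ^ (n - 1)) ^ 2 * ζ ^ (n - 1) / (1 / (440 * (n:ℝ) ^ 2))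
      = 440 * ((n * x ^ (n - 1)) ^ 2 * ζ ^ (n - 1)) := by
    field_simp
  rw [hlog] at h
  set ℓ := Real.log (440 * ((n * x ^ (n - 1)) ^ 2 * ζ ^ (n - 1))) with hℓ
  have hp : 0 < x ^ (n - 1 - 1) * (x ^ (n - 1) * ζ ^ (n - 1 - 1)) := by positivity
  refine le_of_mul_le_mul_left ?_ hp
  calc x ^ (n - 1 - 1) * (x ^ (n - 1) * ζ ^ (n - 1 - 1)) *
        (((n:ℝ) - 1) * ‖2 + ((n:ℂ) + 1) * c ^ (n - 1)‖ * r)
      = ((n:ℝ) - 1) * x ^ (n - 1 - 1) * (x ^ (n - 1) * ζ ^ (n - 1 - 1)) *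
        ‖2 + ((n:ℂ) + 1) * c ^ (n - 1)‖ * r := by ring
    _ ≤ 2 * ((x ^ (n - 1)) ^ 2 * ζ ^ (n - 1)) * ℓ := h
    _ = 2 * ((x ^ (n - 1)) * (x * x ^ (n - 1 - 1)) * (ζ * ζ ^ (n - 1 - 1))) * ℓ := by
        rw [← hsplit, ← hsplit2]; ring
    _ = _ := by ring

/-- escape -/
theorem not_mem_of_gt {n : ℕ} (hn : 2 ≤ n) {c z : ℂ} {k : ℕ} (hz : (f n c)^[k] 0 = z)
    (hzc : ‖c‖ ≤ ‖z‖) (h2 : 2 < ‖z‖ ^ (n - 1)) : c ∉ multibrotSet n := by
  have hz0 : 0 < ‖z‖ := by
    rcases (norm_nonneg z).lt_or_eq with h0 | h0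
    · exact h0
    · exfalso
      rw [← h0, zero_pow (by omega)] at h2
      norm_num at h2
  set R := ‖z‖ with hR
  set q := R ^ (n - 1) - 1 with hq
  have hq1 : 1 < q := by linarith
  have key : ∀ j : ℕ, R * q ^ j ≤ ‖(f n c)^[j] z‖ := by
    intro j
    induction j with
    | zero => simp [hR]
    | succ j ih =>
      rw [Function.iterate_succ_apply']
      set w := (f n c)^[j] z with hw
      have hqj : 1 ≤ q ^ j := one_le_pow₀ hq1.le
      have hRw : R ≤ ‖w‖ := by nlinarith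
      have h3 : ‖w‖ ^ n = ‖w‖ * ‖w‖ ^ (n - 1) := by
        conv_lhs => rw [show n = (n - 1) + 1 by omega]
        rw [pow_succ]; ring
      have h4 : R ^ (n - 1) ≤ ‖w‖ ^ (n - 1) := by gcongr
      have h5 : ‖w‖ ^ n - ‖c‖ ≤ ‖f n c w‖ := by
        have := norm_sub_le (w ^ n + c) c
        rw [add_sub_cancel_right, norm_pow] at this
        unfold f
        linarith
      calc R * q ^ (j + 1) = (R * q ^ j) * q := by ring
        _ ≤ ‖w‖ * q := by gcongr
        _ = ‖w‖ * R ^ (n - 1) - ‖w‖ := by rw [hq]; ring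
        _ ≤ ‖w‖ * ‖w‖ ^ (n - 1) - ‖c‖ := by
            have : ‖c‖ ≤ ‖w‖ := hzc.trans hRw
            have : ‖w‖ * R ^ (n - 1) ≤ ‖w‖ * ‖w‖ ^ (n - 1) := by gcongr
            linarith
        _ ≤ ‖f n c w‖ := by rw [← h3]; exact h5
  have htend : Tendsto (fun j : ℕ => ‖(f n c)^[j] z‖) atTop atTop := by
    refine tendsto_atTop_mono key ?_
    exact (tendsto_pow_atTop_atTop_of_one_lt hq1).const_mul_atTop hz0
  intro hc
  apply hc
  rw [← tendsto_norm_atTop_iff_cobounded]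
  rw [← tendsto_add_atTop_iff_nat k]
  refine htend.congr fun j => ?_
  rw [← hz, ← Function.iterate_add_apply]
  rfl

theorem t_le_two {n : ℕ} (hn : 2 ≤ n) {c : ℂ} (hc : c ∈ multibrotSet n) :
    ‖c‖ ^ (n - 1) ≤ 2 := by
  by_contra h
  push Not at h
  refine not_mem_of_gt hn (c := c) (z := c) (k := 1) ?_ le_rfl h hc
  simp [f, zero_pow (show n ≠ 0 by omega)]

theorem x_le_two {n : ℕ} (hn : 2 ≤ n) {c : ℂ} (hc : c ∈ multibrotSet n) : ‖c‖ ≤ 2 := by
  by_contra h
  push Not at h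
  have h1 := t_le_two hn hc
  have h2 : (2:ℝ) < ‖c‖ ^ (n - 1) := by
    calc (2:ℝ) < ‖c‖ := h
      _ = ‖c‖ ^ 1 := (pow_one _).symm
      _ ≤ ‖c‖ ^ (n - 1) := pow_le_pow_right₀ (by linarith) (by omega)
  linarith

theorem z2_le {n : ℕ} (hn : 2 ≤ n) {c : ℂ} (hc : c ∈ multibrotSet n) :
    ‖c‖ ^ (n - 1) * ‖1 + c ^ (n - 1)‖ ^ (n - 1) ≤ 2 := by
  rw [← mul_pow, ← norm_cn hn]
  by_contra h
  push Not at h
  rcases le_or_gt ‖c‖ ‖c ^ n + c‖ with h1 | h1
  · refine not_mem_of_gt hn (c := c) (z := c ^ n + c) (k := 2) ?_ h1 h hc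
    simp [Function.iterate_succ, f, zero_pow (show n ≠ 0 by omega)]
  · have h2 := t_le_two hn hc
    have h3 : ‖c ^ n + c‖ ^ (n - 1) ≤ ‖c‖ ^ (n - 1) := by gcongr
    linarith

theorem att_zero {n : ℕ} (hn : 2 ≤ n) : Att2 n 0 := by
  obtain ⟨z, hz⟩ := P1 hn (c := 0) (by rw [norm_zero, zero_pow (by omega)]; norm_num)
  exact ⟨1, z, Or.inl rfl, hz⟩

/-- Radius bound for discs without attracting cycles of period `≤ 2`. -/
theorem radius_bound {n : ℕ} (hn : 2 ≤ n) {c : ℂ} (hcM : c ∈ multibrotSet n) {r : ℝ} (hr : 0 < r)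
    (hno : ∀ c' ∈ ball c r, ¬ Att2 n c') :
    r ≤ 126 / ((n:ℝ) - 1) ∧ r * (n * ‖c‖ ^ (n - 1)) ≤ 4600 * Real.log n / ((n:ℝ) - 1) := by
  have hn' : (2:ℝ) ≤ n := by exact_mod_cast hn
  have hn0 : (0:ℝ) < n := by linarith
  have hn1 : (0:ℝ) < n - 1 := by linarith
  have hx2 := x_le_two hn hcM
  have ht2 := t_le_two hn hcM
  have hz2 := z2_le hn hcM
  set x := ‖c‖ with hx
  set t := x ^ (n - 1) with ht
  have ht0 : 0 ≤ t := by positivity
  have hlog2 : 0.6931471803 < Real.log 2 := Real.log_two_gt_d9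
  rcases lt_or_ge n 64 with hn64 | hn64
  · have hrx : r ≤ x := by
      by_contra hcon
      push Not at hcon
      refine hno 0 ?_ (att_zero hn)
      rw [mem_ball, dist_comm, dist_zero_right]
      exact hcon
    have hn63 : (n:ℝ) ≤ 63 := by exact_mod_cast (by omega : n ≤ 63)
    constructor
    · rw [le_div_iff₀ hn1]; nlinarith
    · rw [le_div_iff₀ hn1]
      have h1 : Real.log 2 ≤ Real.log n := Real.log_le_log (by norm_num) hn'
      have h2 : r * (n * t) * (n - 1) ≤ 4 * (n * (n - 1)) := by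
        have : r * (n * t) ≤ 2 * (n * 2) := by gcongr; linarith
        nlinarith
      -- `4 n (n-1) ≤ 4600 log n`
      rcases le_or_gt (n:ℝ) 20 with h3 | h3
      · nlinarith
      · have h4 : Real.log 16 ≤ Real.log n := Real.log_le_log (by norm_num) (by linarith)
        have h5 : Real.log 16 = 4 * Real.log 2 := by
          rw [show (16:ℝ) = 2 ^ 4 by norm_num, Real.log_pow]; norm_num
        rcases le_or_gt (n:ℝ) 50 with h6 | h6
        · nlinarith
        · have h7 : Real.log 32 ≤ Real.log n := Real.log_le_log (by norm_num) (by linarith)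
          have h8 : Real.log 32 = 5 * Real.log 2 := by
            rw [show (32:ℝ) = 2 ^ 5 by norm_num, Real.log_pow]; norm_num
          have h9 : 4 * ((n:ℝ) * (n - 1)) ≤ 4 * (63 * 62) := by nlinarith
          nlinarith
  · have hn64' : (64:ℝ) ≤ n := by exact_mod_cast hn64
    have hlogn : 4.15 ≤ Real.log n := by
      have h4 : Real.log 64 ≤ Real.log n := Real.log_le_log (by norm_num) hn64'
      have h5 : Real.log 64 = 6 * Real.log 2 := by
        rw [show (64:ℝ) = 2 ^ 6 by norm_num, Real.log_pow]; norm_num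
      linarith
    have h1 := sp1 hn hr hno
    have h2 := sp2 hn64 hr hno
    have hc1 := low1 hn (hno c (mem_ball_self hr))
    have hc2 := low2 hn64 (hno c (mem_ball_self hr))
    rw [← hx, ← ht] at h1 h2 hc1 hc2
    set s := n * t with hs
    set ζ := ‖1 + c ^ (n - 1)‖ with hζ
    have hs0 : 0 < s := by
      have := Real.exp_pos 1
      by_contra hcon
      push Not at hcon
      nlinarith
    have ht0' : 0 < t := by
      rw [hs] at hs0
      exact pos_of_mul_pos_right hs0 hn0.le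
    have hs2 : s ≤ 2 * n := by rw [hs]; nlinarith
    have hζ0 : 0 ≤ ζ := norm_nonneg _
    have hζ1 : ζ ≤ 1 + t := by
      rw [hζ]; refine (norm_add_le _ _).trans ?_
      rw [norm_one, norm_pow]
    rcases lt_or_ge s 4 with hs4 | hs4
    · have hl : Real.log s ≤ 2 * Real.log 2 := by
        have : Real.log s ≤ Real.log 4 := Real.log_le_log hs0 hs4.le
        have h5 : Real.log 4 = 2 * Real.log 2 := by
          rw [show (4:ℝ) = 2 ^ 2 by norm_num, Real.log_pow]; norm_num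
        linarith
      have hl2 : Real.log 2 < 0.6931471808 := Real.log_two_lt_d9
      have h3 : ((n:ℝ) - 1) * r ≤ 10 := by
        have h4 : 2 * x * (1 + Real.log s) ≤ 2 * x * (1 + 2 * 0.6931471808) := by
          gcongr
          linarith
        nlinarith [norm_nonneg c]
      constructor
      · rw [le_div_iff₀ hn1]; linarith
      · rw [le_div_iff₀ hn1]
        have : r * s * (n - 1) = ((n:ℝ) - 1) * r * s := by ring
        rw [this]
        nlinarith
    · have hnorm : s / 2 ≤ ‖2 + ((n:ℂ) + 1) * c ^ (n - 1)‖ := by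
        have h3 : ‖((n:ℂ) + 1) * c ^ (n - 1)‖ = (n + 1) * t := by
          rw [norm_mul, norm_pow, ← hx, ← ht]
          congr 1
          have : ((n:ℂ) + 1) = ((n + 1 : ℕ) : ℂ) := by push_cast; ring
          rw [this, Complex.norm_natCast]; push_cast; ring
        have h4 := norm_sub_le (2 + ((n:ℂ) + 1) * c ^ (n - 1)) 2
        rw [add_sub_cancel_left, h3] at h4
        have h5 : ‖(2:ℂ)‖ = 2 := by simp
        rw [h5] at h4
        nlinarith
      set ℓ := Real.log (440 * (s ^ 2 * ζ ^ (n - 1))) with hℓ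
      have hF : 1 ≤ 440 * (s ^ 2 * ζ ^ (n - 1)) := by linarith
      have hℓ0 : 0 ≤ ℓ := Real.log_nonneg hF
      have hζ3 : ζ ≤ 3 := by linarith
      have hmain : ((n:ℝ) - 1) * s * r ≤ 24 * ℓ := by
        have h6 : ((n:ℝ) - 1) * (s / 2) * r ≤ 2 * x * ζ * ℓ := by
          refine le_trans ?_ h2
          gcongr
        have h7 : 2 * x * ζ * ℓ ≤ 2 * 2 * 3 * ℓ := by gcongr
        linarith
      have hζpos : 0 < ζ ^ (n - 1) := by
        by_contra hcon
        push Not at hcon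
        have : 440 * (s ^ 2 * ζ ^ (n - 1)) ≤ 0 := by
          have := mul_nonneg_of_nonpos_of_nonpos hcon (by norm_num : (-1:ℝ) ≤ 0)
          nlinarith [sq_nonneg s]
        linarith
      have hsplit : ℓ = Real.log 440 + 2 * Real.log s + Real.log (ζ ^ (n - 1)) := by
        rw [hℓ, Real.log_mul (by norm_num) (by positivity), Real.log_mul (by positivity)
          hζpos.ne', Real.log_pow]
        push_cast; ring
      have h440 : Real.log 440 ≤ 6.3 := by
        have : Real.log 440 ≤ Real.log 512 := Real.log_le_log (by norm_num) (by norm_num)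
        have h5 : Real.log 512 = 9 * Real.log 2 := by
          rw [show (512:ℝ) = 2 ^ 9 by norm_num, Real.log_pow]; norm_num
        have hl2 : Real.log 2 < 0.6931471808 := Real.log_two_lt_d9
        linarith
      constructor
      · -- first bound
        have hl1 : Real.log s ≤ s - 1 := Real.log_le_sub_one_of_pos hs0
        have hl3 : Real.log (ζ ^ (n - 1)) ≤ s := by
          have h8 : ζ ^ (n - 1) ≤ Real.exp s := by
            calc ζ ^ (n - 1) ≤ (1 + t) ^ (n - 1) := by gcongr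
              _ = (1 + s / n) ^ (n - 1) := by rw [hs]; congr 2; field_simp
              _ ≤ Real.exp s := one_add_div_pow_le (by omega) hs0.le (by omega)
          have := Real.log_le_log hζpos h8
          rwa [Real.log_exp] at this
        have h9 : ℓ ≤ 5 * s := by rw [hsplit]; linarith
        rw [le_div_iff₀ hn1]
        have h10 : ((n:ℝ) - 1) * s * r ≤ 120 * s := by linarith
        have h11 : s * (((n:ℝ) - 1) * r) ≤ s * 120 := by linarith
        have := le_of_mul_le_mul_left h11 hs0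
        linarith
      · have hl3 : Real.log (ζ ^ (n - 1)) ≤ Real.log (2 / t) := by
          refine Real.log_le_log hζpos ?_
          rw [le_div_iff₀ ht0']
          linarith [mul_comm t (ζ ^ (n - 1))]
        have hl4 : Real.log (2 / t) = Real.log 2 + Real.log n - Real.log s := by
          have : 2 / t = 2 * n / s := by rw [hs]; field_simp
          rw [this, Real.log_div (by positivity) hs0.ne', Real.log_mul (by norm_num) hn0.ne']
        have hl5 : Real.log s ≤ Real.log 2 + Real.log n := by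
          rw [← Real.log_mul (by norm_num) hn0.ne']
          exact Real.log_le_log hs0 hs2
        have hl2 : Real.log 2 < 0.6931471808 := Real.log_two_lt_d9
        have h9 : ℓ ≤ 4 * Real.log n := by rw [hsplit]; linarith
        rw [le_div_iff₀ hn1]
        have : r * s * (n - 1) = ((n:ℝ) - 1) * s * r := by ring
        rw [this]
        linarith

/-- Coarse density of hyperbolicity. -/
theorem coarse {n : ℕ} (hn : 2 ≤ n) {c : ℂ} (hc : c ∈ multibrotSet n) :
    ∃ c' : ℂ, Att2 n c' ∧ ‖c' - c‖ ≤ 300 / n ∧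
      ‖c' - c‖ * ((n:ℝ) ^ 2 * ‖c‖ ^ (n - 1)) ≤ 10000 * Real.log n := by
  have hn' : (2:ℝ) ≤ n := by exact_mod_cast hn
  have hn0 : (0:ℝ) < n := by linarith
  have hn1 : (0:ℝ) < n - 1 := by linarith
  set t := ‖c‖ ^ (n - 1) with ht
  have ht0 : 0 ≤ t := by positivity
  have hlog2 : 0.6931471803 < Real.log 2 := Real.log_two_gt_d9
  have hlogn : 0.69 ≤ Real.log n := by
    have := Real.log_le_log (by norm_num) hn'
    linarith
  by_contra hcon
  push Not at hcon
  -- if there is no such `c'`, the ball of radius `r` has no attracting parameters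
  have key : ∀ r : ℝ, 0 < r → r ≤ 300 / n → r * ((n:ℝ) ^ 2 * t) ≤ 10000 * Real.log n →
      ∀ c' ∈ ball c r, ¬ Att2 n c' := by
    intro r hr h1 h2 c' hc' hatt
    rw [mem_ball, dist_eq_norm] at hc'
    have h3 := hcon c' hatt (hc'.le.trans h1)
    have h4 : ‖c' - c‖ * ((n:ℝ) ^ 2 * t) ≤ r * ((n:ℝ) ^ 2 * t) := by gcongr
    linarith
  rcases le_or_gt (300 / (n:ℝ) * ((n:ℝ) ^ 2 * t)) (10000 * Real.log n) with h | h
  · have h1 := (radius_bound hn hc (by positivity) (key (300 / n) (by positivity) le_rfl h)).1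
    rw [div_le_div_iff₀ hn0 hn1] at h1
    linarith
  · have hpos : 0 < (n:ℝ) ^ 2 * t := by
      by_contra h0
      push Not at h0
      have : 300 / (n:ℝ) * ((n:ℝ) ^ 2 * t) ≤ 0 := mul_nonpos_of_nonneg_of_nonpos (by positivity) h0
      nlinarith
    set r := 10000 * Real.log n / ((n:ℝ) ^ 2 * t) with hr
    have hr0 : 0 < r := by positivity
    have hr1 : r ≤ 300 / n := by
      rw [hr, div_le_iff₀ hpos]; exact h.le
    have hr2 : r * ((n:ℝ) ^ 2 * t) = 10000 * Real.log n := by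
      rw [hr, div_mul_cancel₀ _ hpos.ne']
    have h1 := (radius_bound hn hc hr0 (key r hr0 hr1 hr2.le)).2
    rw [← ht, le_div_iff₀ hn1] at h1
    have h2 : r * (n * t) * n = 10000 * Real.log n := by rw [← hr2]; ring
    have h3 : r * (n * t) * (n - 1) = 10000 * Real.log n * ((n - 1) / n) := by
      rw [← h2]; field_simp
    rw [h3] at h1
    have h4 : (1:ℝ) / 2 ≤ (n - 1) / n := by
      rw [div_le_div_iff₀ (by norm_num) hn0]; linarith
    nlinarith

end Pool.Agent.H749R2.Hyp
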