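import Mathlib

/-!
# Areas of planar regions described in polar coordinates by `c ^ N`
-/

set_option autoImplicit false
open MeasureTheory Set Real
open scoped ENNReal

namespace Pool.Agent.H749R2.Area

/-- the point with polar coordinates `(x, φ)` -/
noncomputable def pt (x φ : ℝ) : ℂ := (x : ℂ) * (Complex.cos φ + Complex.sin φ * Complex.I)

theorem pt_eq (x φ : ℝ) : pt x φ = x * Complex.exp (φ * Complex.I) := by
  rw [pt, Complex.exp_mul_I]

theorem norm_pt {x : ℝ} (hx : 0 ≤ x) (φ : ℝ) : ‖pt x φ‖ = x := by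
  rw [pt_eq, norm_mul, Complex.norm_exp_ofReal_mul_I, mul_one, Complex.norm_real]
  exact abs_of_nonneg hx

theorem pt_pow (x φ : ℝ) (N : ℕ) : pt x φ ^ N = pt (x ^ N) (N * φ) := by
  rw [pt_eq, pt_eq, mul_pow, ← Complex.exp_nat_mul]
  push_cast
  ring_nf

theorem re_pt (x φ : ℝ) : (pt x φ).re = x * Real.cos φ := by
  rw [pt_eq, Complex.re_ofReal_mul, Complex.exp_ofReal_mul_I_re]

/-- area in polar coordinates -/
theorem vol_polar {U : Set ℂ} (hU : MeasurableSet U) :
    volume U = ∫⁻ x in Ioi (0:ℝ), ENNReal.ofReal x *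
      volume ({φ | pt x φ ∈ U} ∩ Ioo (-π) π) := by
  have hmeas : Measurable fun p : ℝ × ℝ => pt p.1 p.2 := by
    unfold pt
    fun_prop
  rw [← lintegral_indicator_one hU, ← Complex.lintegral_comp_polarCoord_symm]
  have ht : polarCoord.target = Ioi (0:ℝ) ×ˢ Ioo (-π) π := rfl
  rw [ht, Measure.volume_eq_prod, ← Measure.prod_restrict]
  have hsymm : ∀ p : ℝ × ℝ, Complex.polarCoord.symm p = pt p.1 p.2 := by
    intro p
    rw [Complex.polarCoord_symm_apply, pt]
    push_cast
    rfl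
  have hAE : Measurable fun p : ℝ × ℝ =>
      ENNReal.ofReal p.1 • U.indicator (1 : ℂ → ℝ≥0∞) (Complex.polarCoord.symm p) := by
    have h1 : Measurable fun p : ℝ × ℝ => U.indicator (1 : ℂ → ℝ≥0∞) (pt p.1 p.2) :=
      (measurable_one.indicator hU).comp hmeas
    have h2 : (fun p : ℝ × ℝ =>
      ENNReal.ofReal p.1 • U.indicator (1 : ℂ → ℝ≥0∞) (Complex.polarCoord.symm p))
      = fun p : ℝ × ℝ => ENNReal.ofReal p.1 * U.indicator (1 : ℂ → ℝ≥0∞) (pt p.1 p.2) := by
      funext p; rw [hsymm, smul_eq_mul]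
    rw [h2]
    exact (measurable_fst.ennreal_ofReal).mul h1
  rw [lintegral_prod _ hAE.aemeasurable]
  refine lintegral_congr fun x => ?_
  simp only [hsymm, smul_eq_mul]
  have hmx : Measurable fun φ : ℝ => pt x φ := by unfold pt; fun_prop
  have hset : MeasurableSet {φ | pt x φ ∈ U} := hmx hU
  rw [lintegral_const_mul]
  · congr 1
    have : (fun y : ℝ => U.indicator (1 : ℂ → ℝ≥0∞) (pt x y))
        = ({φ | pt x φ ∈ U}).indicator (1 : ℝ → ℝ≥0∞) := by
      funext y
      simp only [indicator, mem_setOf_eq]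
      rfl
    rw [this, lintegral_indicator_one hset, Measure.restrict_apply hset]
  · exact (measurable_one.indicator hU).comp hmx

theorem abs_cos_floor (y : ℝ) :
    2 / π * |y - ((⌊y / π⌋ : ℝ) + 1 / 2) * π| ≤ |Real.cos y| := by
  set j := ⌊y / π⌋ with hj
  set θ := y - ((j : ℝ) + 1 / 2) * π with hθ
  have hπ := Real.pi_pos
  have h1 : (j : ℝ) ≤ y / π := Int.floor_le _
  have h2 : y / π < j + 1 := Int.lt_floor_add_one _
  rw [le_div_iff₀ hπ] at h1
  rw [div_lt_iff₀ hπ] at h2
  have hθ1 : -(π / 2) ≤ θ := by rw [hθ]; nlinarith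
  have hθ2 : θ ≤ π / 2 := by rw [hθ]; nlinarith
  have hcos : |Real.cos y| = |Real.sin θ| := by
    have hy : y = θ + (j : ℝ) * π + π / 2 := by rw [hθ]; ring
    rw [hy, Real.cos_add_pi_div_two, abs_neg, Real.sin_add_int_mul_pi, abs_mul, abs_zpow]
    simp
  rw [hcos]
  rcases le_total 0 θ with h0 | h0
  · rw [abs_of_nonneg h0]
    exact (Real.mul_le_sin h0 hθ2).trans (le_abs_self _)
  · rw [abs_of_nonpos h0]
    have := Real.mul_le_sin (neg_nonneg.mpr h0) (by linarith)
    rw [Real.sin_neg] at this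
    exact this.trans (neg_le_abs _)

/-- the angles where `|cos (N φ)|` is small -/
theorem cosset_le {N : ℕ} (hN : 1 ≤ N) {κ : ℝ} (hκ : 0 ≤ κ) :
    volume ({φ : ℝ | |Real.cos (N * φ)| ≤ κ} ∩ Ioo (-π) π) ≤ ENNReal.ofReal (2 * π * κ) := by
  have hπ := Real.pi_pos
  have hN' : (1:ℝ) ≤ N := by exact_mod_cast hN
  have hN0 : (0:ℝ) < N := by linarith
  set I : ℤ → Set ℝ := fun j => Icc ((((j : ℝ) + 1 / 2) * π - π * κ / 2) / N)
    ((((j : ℝ) + 1 / 2) * π + π * κ / 2) / N) with hI
  have hsub : ({φ : ℝ | |Real.cos (N * φ)| ≤ κ} ∩ Ioo (-π) π) ⊆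
      ⋃ j ∈ Finset.Ico (-(N : ℤ)) N, I j := by
    rintro φ ⟨h1, h2, h3⟩
    simp only [mem_setOf_eq] at h1
    have h4 := abs_cos_floor (N * φ)
    set j := ⌊(N:ℝ) * φ / π⌋ with hj
    simp only [mem_iUnion]
    refine ⟨j, ?_, ?_⟩
    · rw [Finset.mem_Ico]
      constructor
      · rw [hj, Int.le_floor]
        push_cast
        rw [le_div_iff₀ hπ]
        nlinarith
      · rw [hj, Int.floor_lt, div_lt_iff₀ hπ]
        push_cast
        nlinarith
    · have h5 : |(N:ℝ) * φ - ((j : ℝ) + 1 / 2) * π| ≤ π * κ / 2 := by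
        have h6 : 2 / π * |(N:ℝ) * φ - ((j : ℝ) + 1 / 2) * π| ≤ κ := h4.trans h1
        have h7 : |(N:ℝ) * φ - ((j : ℝ) + 1 / 2) * π|
            = π / 2 * (2 / π * |(N:ℝ) * φ - ((j : ℝ) + 1 / 2) * π|) := by
          field_simp
        rw [h7]
        calc π / 2 * (2 / π * |(N:ℝ) * φ - ((j : ℝ) + 1 / 2) * π|) ≤ π / 2 * κ := by gcongr
          _ = π * κ / 2 := by ring
      rw [abs_le] at h5
      rw [hI]
      simp only [mem_Icc]
      constructor
      · rw [div_le_iff₀ hN0]; linarith [h5.1]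
      · rw [le_div_iff₀ hN0]; linarith [h5.2]
  refine (measure_mono hsub).trans ((measure_biUnion_finset_le _ _).trans ?_)
  have hvol : ∀ j : ℤ, volume (I j) = ENNReal.ofReal (π * κ / N) := by
    intro j
    rw [hI]
    simp only [Real.volume_Icc]
    congr 1
    ring
  simp only [hvol]
  rw [Finset.sum_const, Int.card_Ico, nsmul_eq_mul]
  have h8 : ((N:ℤ) - -(N:ℤ)).toNat = 2 * N := by omega
  rw [h8]
  have h9 : ((2 * N : ℕ) : ℝ≥0∞) = ENNReal.ofReal (2 * N) := by
    rw [← ENNReal.ofReal_natCast]; push_cast; rfl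
  rw [h9, ← ENNReal.ofReal_mul (by positivity)]
  apply ENNReal.ofReal_le_ofReal
  apply le_of_eq
  field_simp

/-- the angles where `cos (N φ)` is definitely negative -/
theorem cosset_ge {N : ℕ} (hN : 1 ≤ N) :
    ENNReal.ofReal (π / 3) ≤ volume ({φ : ℝ | Real.cos (N * φ) ≤ -(1 / 4)} ∩ Ioo (-π) π) := by
  have hπ := Real.pi_pos
  have hN' : (1:ℝ) ≤ N := by exact_mod_cast hN
  have hN0 : (0:ℝ) < N := by linarith
  set S := {φ : ℝ | Real.cos (N * φ) ≤ -(1 / 4)} with hS
  have hSm : MeasurableSet S := by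
    apply measurableSet_le
    · fun_prop
    · fun_prop
  set P : ℝ → ℝ := fun φ => 2 / 3 * ((Real.cos (N * φ)) ^ 2 - 3 / 4 * Real.cos (N * φ) - 1 / 4)
    with hP
  have hPc : Continuous P := by rw [hP]; fun_prop
  have hPle : ∀ φ, P φ ≤ S.indicator (fun _ => (1:ℝ)) φ := by
    intro φ
    rw [hP]
    simp only
    have h1 := Real.neg_one_le_cos (N * φ)
    have h2 := Real.cos_le_one (N * φ)
    by_cases h : φ ∈ S
    · rw [indicator_of_mem h]
      have h3 : Real.cos (N * φ) ≤ -(1 / 4) := h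
      nlinarith
    · rw [indicator_of_notMem h]
      have h3 : -(1 / 4) < Real.cos (N * φ) := by
        by_contra hcon
        push Not at hcon
        exact h hcon
      nlinarith
  have hint : ∫ φ in (-π)..π, P φ = π / 3 := by
    have hd : ∀ φ ∈ uIcc (-π) π, HasDerivAt (fun φ => 2 / 3 * ((φ / 2 + Real.sin (2 * N * φ) / (4 * N))
        - 3 / 4 * (Real.sin (N * φ) / N) - 1 / 4 * φ)) (P φ) φ := by
      intro φ _
      have e1 : HasDerivAt (fun φ : ℝ => Real.sin (2 * N * φ)) (Real.cos (2 * N * φ) * (2 * N)) φ := by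
        have := (((hasDerivAt_id φ).const_mul (2 * (N:ℝ)))).sin
        simpa using this
      have e2 : HasDerivAt (fun φ : ℝ => Real.sin (N * φ)) (Real.cos (N * φ) * N) φ := by
        have := (((hasDerivAt_id φ).const_mul ((N:ℝ)))).sin
        simpa using this
      have e3 := (((((hasDerivAt_id φ).div_const 2).add (e1.div_const (4 * (N:ℝ)))).sub
        ((e2.div_const (N:ℝ)).const_mul (3 / 4))).sub ((hasDerivAt_id φ).const_mul (1 / 4))).const_mul (2 / 3)
      refine e3.congr_deriv ?_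
      rw [hP]
      simp only
      have h4 : Real.cos (2 * N * φ) = 2 * Real.cos (N * φ) ^ 2 - 1 := by
        rw [← Real.cos_two_mul]; ring_nf
      rw [h4]
      field_simp
      ring
    rw [intervalIntegral.integral_eq_sub_of_hasDerivAt hd (hPc.intervalIntegrable _ _)]
    have s1 : Real.sin (2 * N * π) = 0 := by
      have := Real.sin_nat_mul_pi (2 * N)
      push_cast at this
      exact this
    have s2 : Real.sin (2 * N * -π) = 0 := by
      rw [mul_neg, Real.sin_neg, s1, neg_zero]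
    have s3 : Real.sin (N * π) = 0 := Real.sin_nat_mul_pi N
    have s4 : Real.sin (N * -π) = 0 := by rw [mul_neg, Real.sin_neg, s3, neg_zero]
    rw [s1, s2, s3, s4]
    ring
  have hle : ∫ φ in (-π)..π, P φ ≤ (volume (S ∩ Ioc (-π) π)).toReal := by
    have h1 : ∫ φ in (-π)..π, P φ ≤ ∫ φ in (-π)..π, S.indicator (fun _ => (1:ℝ)) φ := by
      apply intervalIntegral.integral_mono_on (by linarith) (hPc.intervalIntegrable _ _)
      · rw [intervalIntegrable_iff_integrableOn_Ioc_of_le (by linarith)]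
        exact (integrableOn_const (by simp)).indicator hSm
      · intro φ _; exact hPle φ
    refine h1.trans (le_of_eq ?_)
    rw [intervalIntegral.integral_of_le (by linarith), setIntegral_indicator hSm,
      setIntegral_const, smul_eq_mul, mul_one, inter_comm]
    rfl
  have hfin : volume (S ∩ Ioc (-π) π) ≠ ⊤ :=
    (measure_mono inter_subset_right).trans_lt (by simp) |>.ne
  have heq : volume (S ∩ Ioo (-π) π) = volume (S ∩ Ioc (-π) π) := by
    apply measure_congr
    exact (ae_eq_refl S).inter Ioo_ae_eq_Ioc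
  rw [heq, ENNReal.ofReal_le_iff_le_toReal hfin, ← hint]
  exact hle

/-- Lower Lebesgue integral of a nonnegative continuous function over an interval. -/
theorem lint_Icc {f : ℝ → ℝ} {a b : ℝ} (hab : a ≤ b) (hf : ContinuousOn f (Icc a b))
    (h0 : ∀ x ∈ Icc a b, 0 ≤ f x) :
    ∫⁻ x in Icc a b, ENNReal.ofReal (f x) = ENNReal.ofReal (∫ x in a..b, f x) := by
  rw [intervalIntegral.integral_of_le hab, ← integral_Icc_eq_integral_Ioc,
    ofReal_integral_eq_lintegral_ofReal (hf.integrableOn_Icc)]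
  rw [Filter.EventuallyLE, ae_restrict_iff' measurableSet_Icc]
  exact Filter.Eventually.of_forall h0

end Pool.Agent.H749R2.Area
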