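import Pool.Agent.H749R2.Area1

/-!
# Upper area bound
-/

set_option autoImplicit false
open MeasureTheory Set Real
open scoped ENNReal

namespace Pool.Agent.H749R2.Area

/-- `N`-th root of a positive number -/
noncomputable def rt (N : ℕ) (y : ℝ) : ℝ := Real.exp (Real.log y / N)

theorem rt_pos (N : ℕ) (y : ℝ) : 0 < rt N y := Real.exp_pos _

theorem rt_pow {N : ℕ} (hN : 1 ≤ N) {y : ℝ} (hy : 0 < y) : rt N y ^ N = y := by
  have hN' : (N:ℝ) ≠ 0 := by exact_mod_cast (by omega : N ≠ 0)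
  rw [rt, ← Real.exp_nat_mul, mul_div_cancel₀ _ hN', Real.exp_log hy]

theorem rt_le_one {N : ℕ} {y : ℝ} (hy : 0 < y) (hy1 : y ≤ 1) : rt N y ≤ 1 := by
  rw [rt, Real.exp_le_one_iff]
  exact div_nonpos_of_nonpos_of_nonneg (Real.log_nonpos hy.le hy1) (Nat.cast_nonneg _)

theorem rt_mono {N : ℕ} {y z : ℝ} (hy : 0 < y) (hyz : y ≤ z) : rt N y ≤ rt N z := by
  rw [rt, rt, Real.exp_le_exp]
  have := Real.log_le_log hy hyz
  gcongr

theorem le_rt {N : ℕ} (hN : 1 ≤ N) {x y : ℝ} (hy : 0 < y) (h : x ^ N ≤ y) :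
    x ≤ rt N y := by
  by_contra hcon
  push Not at hcon
  have := pow_lt_pow_left₀ hcon (rt_pos N y).le (by omega : N ≠ 0)
  rw [rt_pow hN hy] at this
  linarith

theorem rt_le {N : ℕ} (hN : 1 ≤ N) {x y : ℝ} (hx : 0 ≤ x) (hy : 0 < y) (h : y ≤ x ^ N) :
    rt N y ≤ x := by
  by_contra hcon
  push Not at hcon
  have := pow_lt_pow_left₀ hcon hx (by omega : N ≠ 0)
  rw [rt_pow hN hy] at this
  linarith

/-- the region containing the undecided parameters -/
def U (N : ℕ) (τ η : ℝ) : Set ℂ :=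
  {c | τ ≤ ‖c‖ ^ N ∧ ‖c‖ ^ N ≤ 2 ∧ |2 * (c ^ N).re + (‖c‖ ^ N) ^ 2| ≤ η}

theorem measurableSet_U (N : ℕ) (τ η : ℝ) : MeasurableSet (U N τ η) := by
  have h1 : MeasurableSet {c : ℂ | τ ≤ ‖c‖ ^ N} :=
    measurableSet_le measurable_const (by fun_prop)
  have h2 : MeasurableSet {c : ℂ | ‖c‖ ^ N ≤ 2} :=
    measurableSet_le (by fun_prop) measurable_const
  have h3 : MeasurableSet {c : ℂ | |2 * (c ^ N).re + (‖c‖ ^ N) ^ 2| ≤ η} := by
    apply measurableSet_le _ measurable_const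
    have : Continuous fun c : ℂ => |2 * (c ^ N).re + (‖c‖ ^ N) ^ 2| := by fun_prop
    exact this.measurable
  exact h1.inter (h2.inter h3)

theorem der_F (M : ℕ) (η : ℝ) {x : ℝ} (hx : 0 < x) :
    HasDerivAt (fun x : ℝ => π * (x ^ (M + 5) / ((M:ℝ) + 5) - η / (((M:ℝ) + 1) * x ^ (M + 1))))
      (x * (π * (x ^ (M + 3) + η / x ^ (M + 3)))) x := by
  have e1 : HasDerivAt (fun x : ℝ => x ^ (M + 5)) (((M + 5 : ℕ) : ℝ) * x ^ (M + 4)) x := by
    simpa using hasDerivAt_pow (M + 5) x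
  have e2 : HasDerivAt (fun x : ℝ => x ^ (M + 1)) (((M + 1 : ℕ) : ℝ) * x ^ M) x := by
    simpa using hasDerivAt_pow (M + 1) x
  have hM : ((M:ℝ) + 1) ≠ 0 := by positivity
  have e3 : HasDerivAt (fun x : ℝ => π * (x ^ (M + 5) / ((M:ℝ) + 5)
      - η / (((M:ℝ) + 1) * x ^ (M + 1)))) _ x :=
    ((e1.div_const ((M:ℝ) + 5)).fun_sub ((hasDerivAt_const x η).fun_div
      (e2.const_mul ((M:ℝ) + 1)) (mul_ne_zero hM (pow_ne_zero _ hx.ne')))).const_mul π
  refine e3.congr_deriv ?_
  push_cast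
  field_simp
  ring

theorem area_U {N : ℕ} (hN : 3 ≤ N) {τ η : ℝ} (hτ : 0 < τ) (hτη : τ ≤ η) (hη : η ≤ 1) :
    volume (U N τ η) ≤
      ENNReal.ofReal (2 * π * Real.log (η / τ) / N + 4 * π / N + π / (N - 2)) := by
  have hπ := Real.pi_pos
  have hN' : (3:ℝ) ≤ N := by exact_mod_cast hN
  have hN0 : (0:ℝ) < N := by linarith
  have hη0 : 0 < η := lt_of_lt_of_le hτ hτη
  have hN1 : 1 ≤ N := by omega
  set x0 := rt N τ with hx0
  set xe := rt N η with hxe
  set x1 := rt N 2 with hx1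
  have h0e : x0 ≤ xe := rt_mono hτ hτη
  have he1 : xe ≤ x1 := rt_mono hη0 (by linarith)
  have hx0p : 0 < x0 := rt_pos _ _
  have hxep : 0 < xe := rt_pos _ _
  have hx1p : 0 < x1 := rt_pos _ _
  set f1 : ℝ → ℝ := fun x => 2 * π * x with hf1
  set f2 : ℝ → ℝ := fun x => x * (π * (x ^ N + η / x ^ N)) with hf2
  rw [vol_polar (measurableSet_U N τ η)]
  have hslice : ∀ x ∈ Ioi (0:ℝ), ENNReal.ofReal x * volume ({φ | pt x φ ∈ U N τ η} ∩ Ioo (-π) π)
      ≤ (Icc x0 xe).indicator (fun x => ENNReal.ofReal (f1 x)) x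
        + (Icc xe x1).indicator (fun x => ENNReal.ofReal (f2 x)) x := by
    intro x hx
    have hx' : 0 < x := hx
    by_cases hx01 : x ∈ Icc x0 x1
    · rcases le_total x xe with hxe' | hxe'
      · have hmem : x ∈ Icc x0 xe := ⟨hx01.1, hxe'⟩
        rw [indicator_of_mem hmem]
        refine le_trans ?_ le_self_add
        have h1 : volume ({φ | pt x φ ∈ U N τ η} ∩ Ioo (-π) π) ≤ ENNReal.ofReal (2 * π) := by
          refine (measure_mono inter_subset_right).trans (le_of_eq ?_)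
          rw [Real.volume_Ioo]; congr 1; ring
        calc _ ≤ ENNReal.ofReal x * ENNReal.ofReal (2 * π) := by gcongr
          _ = ENNReal.ofReal (f1 x) := by
            rw [← ENNReal.ofReal_mul hx'.le]; congr 1; rw [hf1]; ring
      · have hmem : x ∈ Icc xe x1 := ⟨hxe', hx01.2⟩
        rw [indicator_of_mem hmem]
        refine le_trans ?_ le_add_self
        have hκ : 0 ≤ (x ^ N + η / x ^ N) / 2 := by positivity
        have h1 : volume ({φ | pt x φ ∈ U N τ η} ∩ Ioo (-π) π)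
            ≤ ENNReal.ofReal (2 * π * ((x ^ N + η / x ^ N) / 2)) := by
          refine (measure_mono ?_).trans (cosset_le hN1 hκ)
          rintro φ ⟨h2, h3⟩
          refine ⟨?_, h3⟩
          obtain ⟨-, -, h4⟩ := h2
          rw [pt_pow, re_pt, norm_pt hx'.le] at h4
          have ht : 0 < x ^ N := by positivity
          show |Real.cos (N * φ)| ≤ (x ^ N + η / x ^ N) / 2
          have h5 : |2 * (x ^ N * Real.cos (N * φ))| ≤ η + (x ^ N) ^ 2 := by
            have := abs_sub (2 * (x ^ N * Real.cos (N * φ)) + (x ^ N) ^ 2) ((x ^ N) ^ 2)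
            rw [add_sub_cancel_right, abs_of_nonneg (sq_nonneg (x ^ N))] at this
            linarith
          rw [abs_mul, abs_mul, abs_of_pos ht, abs_two] at h5
          have h6 : (x ^ N + η / x ^ N) / 2 = (η + (x ^ N) ^ 2) / (2 * x ^ N) := by
            field_simp; ring
          rw [h6, le_div_iff₀ (by positivity)]
          linarith
        calc _ ≤ ENNReal.ofReal x * ENNReal.ofReal (2 * π * ((x ^ N + η / x ^ N) / 2)) := by gcongr
          _ = ENNReal.ofReal (f2 x) := by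
            rw [← ENNReal.ofReal_mul hx'.le]; congr 1; rw [hf2]; ring
    · have hemp : {φ | pt x φ ∈ U N τ η} ∩ Ioo (-π) π = ∅ := by
        rw [eq_empty_iff_forall_notMem]
        rintro φ ⟨⟨h1, h2, -⟩, -⟩
        rw [norm_pt hx'.le] at h1 h2
        exact hx01 ⟨rt_le hN1 hx'.le hτ h1, le_rt hN1 (by norm_num) h2⟩
      rw [hemp, measure_empty, mul_zero]
      simp
  refine (setLIntegral_mono' measurableSet_Ioi hslice).trans ?_
  refine (lintegral_mono' Measure.restrict_le_self le_rfl).trans ?_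
  rw [lintegral_add_left (by
    apply Measurable.indicator _ measurableSet_Icc
    rw [hf1]; fun_prop), lintegral_indicator measurableSet_Icc, lintegral_indicator measurableSet_Icc]
  have hf1c : ContinuousOn f1 (Icc x0 xe) := by rw [hf1]; fun_prop
  have hf2c : ContinuousOn f2 (Icc xe x1) := by
    rw [hf2]
    apply ContinuousOn.mul continuousOn_id
    apply ContinuousOn.mul continuousOn_const
    apply ContinuousOn.add (by fun_prop)
    apply ContinuousOn.div continuousOn_const (by fun_prop)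
    intro x hx
    have : 0 < x := lt_of_lt_of_le hxep hx.1
    positivity
  rw [lint_Icc h0e hf1c (fun x hx => by
      have : 0 < x := lt_of_lt_of_le hx0p hx.1
      rw [hf1]; positivity),
    lint_Icc he1 hf2c (fun x hx => by
      have : 0 < x := lt_of_lt_of_le hxep hx.1
      rw [hf2]; positivity)]
  have hI1 : ∫ x in x0..xe, f1 x = π * (xe ^ 2 - x0 ^ 2) := by
    rw [hf1, intervalIntegral.integral_const_mul, integral_id]; ring
  have hI2 : ∫ x in xe..x1, f2 x
      = π * (x1 ^ (N + 2) / (N + 2) - η / ((N - 2) * x1 ^ (N - 2)))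
        - π * (xe ^ (N + 2) / (N + 2) - η / ((N - 2) * xe ^ (N - 2))) := by
    have hd : ∀ x ∈ uIcc xe x1, HasDerivAt (fun x : ℝ =>
        π * (x ^ (N + 2) / (N + 2) - η / ((N - 2) * x ^ (N - 2)))) (f2 x) x := by
      intro x hx
      rw [uIcc_of_le he1] at hx
      have hxp : 0 < x := lt_of_lt_of_le hxep hx.1
      obtain ⟨M, hM⟩ : ∃ M, N = M + 3 := ⟨N - 3, by omega⟩
      have hMr : (N:ℝ) = M + 3 := by rw [hM]; push_cast; ring
      have h5 := der_F M η hxp
      rw [hf2]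
      simp only
      have a1 : N + 2 = M + 5 := by omega
      have a2 : N - 2 = M + 1 := by omega
      have a3 : (N:ℝ) + 2 = M + 5 := by rw [hMr]; ring
      have a4 : (N:ℝ) - 2 = M + 1 := by rw [hMr]; ring
      rw [a1, a2, a3, a4, hM]
      exact h5
    have hint : IntervalIntegrable f2 volume xe x1 :=
      (hf2c.mono (by rw [uIcc_of_le he1])).intervalIntegrable
    rw [intervalIntegral.integral_eq_sub_of_hasDerivAt hd hint]
  have hsq : x0 ^ 2 ≤ xe ^ 2 := by gcongr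
  rw [← ENNReal.ofReal_add (by rw [hI1]; exact mul_nonneg hπ.le (by linarith)) (by
    apply intervalIntegral.integral_nonneg he1
    intro x hx
    have : 0 < x := lt_of_lt_of_le hxep hx.1
    rw [hf2]; positivity)]
  apply ENNReal.ofReal_le_ofReal
  rw [hI1, hI2]
  have hxe1 : xe ≤ 1 := rt_le_one hη0 hη
  -- first piece
  have h1 : xe ^ 2 - x0 ^ 2 ≤ 2 * Real.log (η / τ) / N := by
    have h2 : xe ^ 2 * Real.exp (-(2 * Real.log (η / τ) / N)) = x0 ^ 2 := by
      rw [hxe, hx0, rt, rt, ← Real.exp_nat_mul, ← Real.exp_nat_mul, ← Real.exp_add,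
        Real.log_div hη0.ne' hτ.ne']
      congr 1
      push_cast
      ring
    have h3 := Real.add_one_le_exp (-(2 * Real.log (η / τ) / N))
    have h4 : 0 ≤ Real.log (η / τ) := Real.log_nonneg (by rwa [le_div_iff₀ hτ, one_mul])
    have h5 : 0 ≤ 2 * Real.log (η / τ) / N := by positivity
    have h6 : xe ^ 2 ≤ 1 := pow_le_one₀ hxep.le hxe1
    nlinarith [sq_nonneg xe]
  have h2 : x1 ^ (N + 2) ≤ 4 := by
    rw [pow_add, hx1, rt_pow hN1 (by norm_num)]
    have : rt N 2 ^ 2 ≤ 2 := by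
      calc rt N 2 ^ 2 ≤ rt N 2 ^ N := by
            apply pow_le_pow_right₀ _ (by omega)
            rw [rt]
            exact Real.one_le_exp (by positivity)
        _ = 2 := rt_pow hN1 (by norm_num)
    linarith
  have h3 : η / xe ^ (N - 2) ≤ 1 := by
    have : xe ^ N = xe ^ (N - 2) * xe ^ 2 := by rw [← pow_add]; congr 1; omega
    have h4 : η = xe ^ (N - 2) * xe ^ 2 := by rw [← this, hxe, rt_pow hN1 hη0]
    rw [div_le_one (by positivity)]
    have h6 : xe ^ 2 ≤ 1 := pow_le_one₀ hxep.le hxe1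
    nlinarith [pow_pos hxep (N - 2)]
  have hN2 : 0 < (N:ℝ) - 2 := by linarith
  have h4 : x1 ^ (N + 2) / (N + 2) ≤ 4 / N := by
    gcongr
    linarith
  have h5 : η / ((N - 2) * xe ^ (N - 2)) ≤ 1 / (N - 2) := by
    have : η / ((N - 2) * xe ^ (N - 2)) = (η / xe ^ (N - 2)) / (N - 2) := by
      field_simp
    rw [this]
    gcongr
  have h6 : 0 ≤ η / ((N - 2) * x1 ^ (N - 2)) := by positivity
  have h7 : 0 ≤ xe ^ (N + 2) / ((N:ℝ) + 2) := by positivity
  have e1 : 2 * π * Real.log (η / τ) / N + 4 * π / N + π / (N - 2)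
    = π * (2 * Real.log (η / τ) / N + 4 / N + 1 / (N - 2)) := by ring
  rw [e1]
  have e2 : π * (xe ^ 2 - x0 ^ 2) +
      (π * (x1 ^ (N + 2) / (N + 2) - η / ((N - 2) * x1 ^ (N - 2)))
        - π * (xe ^ (N + 2) / (N + 2) - η / ((N - 2) * xe ^ (N - 2))))
      = π * ((xe ^ 2 - x0 ^ 2) + x1 ^ (N + 2) / (N + 2) - η / ((N - 2) * x1 ^ (N - 2))
        - xe ^ (N + 2) / (N + 2) + η / ((N - 2) * xe ^ (N - 2))) := by ring
  rw [e2]
  apply mul_le_mul_of_nonneg_left _ hπ.le
  linarith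

end Pool.Agent.H749R2.Area
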