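import Pool.Agent.H749R2.Area2
import Pool.Agent.H749R2.Hyp2

/-!
# Area of the non-hyperbolic part of the Multibrot sets
-/

set_option autoImplicit false
open MeasureTheory Set Real
open scoped ENNReal
open N62a1eb23 Pool.Agent.H749R2.Hyp

namespace Pool.Agent.H749R2.Area

theorem norm_one_add_sq (u : ℂ) : ‖1 + u‖ ^ 2 = 1 + 2 * u.re + ‖u‖ ^ 2 := by
  rw [← Complex.normSq_eq_norm_sq, ← Complex.normSq_eq_norm_sq, Complex.normSq_apply,
    Complex.normSq_apply]
  simp
  ring

theorem log_two_pow (k : ℕ) : Real.log (2 ^ k) = k * Real.log 2 := Real.log_pow _ _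

/-- the undecided parameters lie in the region `U` -/
theorem mem_U {n : ℕ} (hn : 64 ≤ n) {c : ℂ} (hc : c ∈ multibrotSet n) (hno : ¬ Att2 n c) :
    c ∈ U (n - 1) (1 / (Real.exp 1 * n)) (24 * Real.log n / n) := by
  have hn' : (64:ℝ) ≤ n := by exact_mod_cast hn
  have hn0 : (0:ℝ) < n := by linarith
  have hn1 : (0:ℝ) < n - 1 := by linarith
  have h1 := low1 (by omega) hno
  have h2 := low2 hn hno
  have h3 := t_le_two (by omega) hc
  have h4 := z2_le (by omega) hc
  have hlog2 : 0.6931471803 < Real.log 2 := Real.log_two_gt_d9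
  have hlog2' : Real.log 2 < 0.6931471808 := Real.log_two_lt_d9
  have hlogn : 6 * Real.log 2 ≤ Real.log n := by
    have h5 := Real.log_le_log (by norm_num) hn'
    have h6 : Real.log 64 = 6 * Real.log 2 := by
      rw [show (64:ℝ) = 2 ^ 6 by norm_num, Real.log_pow]; norm_num
    linarith
  set t := ‖c‖ ^ (n - 1) with ht
  set ζ := ‖1 + c ^ (n - 1)‖ with hζ
  have hζ0 : 0 ≤ ζ := norm_nonneg _
  have ht0 : 0 < t := by
    have := Real.exp_pos 1
    by_contra hcon
    push Not at hcon
    have : Real.exp 1 * (n * t) ≤ 0 := by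
      apply mul_nonpos_of_nonneg_of_nonpos (by positivity)
      exact mul_nonpos_of_nonneg_of_nonpos hn0.le hcon
    linarith
  have hζpos : 0 < ζ := by
    rcases hζ0.lt_or_eq with h0 | h0
    · exact h0
    · exfalso
      rw [← h0, zero_pow (by omega)] at h2
      norm_num at h2
  have hN1 : ((n - 1 : ℕ) : ℝ) = n - 1 := by rw [Nat.cast_sub (by omega)]; simp
  -- upper bound for log ζ
  have hup : ((n:ℝ) - 1) * Real.log ζ ≤ 3 * Real.log n := by
    have h5 : ζ ^ (n - 1) ≤ 2 * (Real.exp 1 * n) := by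
      have h6 : 1 ≤ (Real.exp 1 * n) * t := by
        have : (Real.exp 1 * n) * t = Real.exp 1 * (n * t) := by ring
        linarith
      calc ζ ^ (n - 1) = 1 * ζ ^ (n - 1) := (one_mul _).symm
        _ ≤ ((Real.exp 1 * n) * t) * ζ ^ (n - 1) := by gcongr
        _ = (Real.exp 1 * n) * (t * ζ ^ (n - 1)) := by ring
        _ ≤ (Real.exp 1 * n) * 2 := by gcongr
        _ = _ := by ring
    have h6 := Real.log_le_log (by positivity) h5
    rw [Real.log_pow, hN1, Real.log_mul (by norm_num) (by positivity),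
      Real.log_mul (Real.exp_pos 1).ne' hn0.ne', Real.log_exp] at h6
    linarith
  have hlo : -(4 * Real.log n) ≤ ((n:ℝ) - 1) * Real.log ζ := by
    have h5 : 1 / (1760 * (n:ℝ) ^ 2) ≤ ζ ^ (n - 1) := by
      rw [div_le_iff₀ (by positivity)]
      have h6 : (n * t) ^ 2 ≤ (n * 2) ^ 2 := by gcongr
      have h7 : 1 / 440 ≤ (n * 2) ^ 2 * ζ ^ (n - 1) := h2.trans (by gcongr)
      nlinarith
    have h6 := Real.log_le_log (by positivity) h5
    rw [Real.log_pow, hN1, one_div, Real.log_inv, Real.log_mul (by norm_num) (by positivity),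
      Real.log_pow] at h6
    have h7 : Real.log 1760 ≤ 11 * Real.log 2 := by
      have h8 := Real.log_le_log (by norm_num) (by norm_num : (1760:ℝ) ≤ 2 ^ 11)
      rw [Real.log_pow] at h8
      push_cast at h8
      exact h8
    push_cast at h6
    linarith
  set η := 24 * Real.log n / n with hη
  have hηn : η * n = 24 * Real.log n := by rw [hη]; field_simp
  have hratio : Real.log n / n ≤ 6 * 0.6931471808 / 64 := by
    -- log n / n is decreasing; use log n ≤ log 64 + (n/64 - 1)
    have h5 : Real.log (n / 64) ≤ n / 64 - 1 := Real.log_le_sub_one_of_pos (by positivity)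
    rw [Real.log_div hn0.ne' (by norm_num)] at h5
    have h6 : Real.log 64 = 6 * Real.log 2 := by
      rw [show (64:ℝ) = 2 ^ 6 by norm_num, Real.log_pow]; norm_num
    rw [div_le_div_iff₀ hn0 (by norm_num)]
    rw [h6] at h5
    nlinarith
  -- bounds for `log ζ ^ 2`
  have hL2 : Real.log (ζ ^ 2) ≤ η / 3 := by
    rw [Real.log_pow]
    push_cast
    have h6 : Real.log ζ ≤ 4 * Real.log n / n := by
      rw [le_div_iff₀ hn0]
      rcases le_or_gt (Real.log ζ) 0 with h7 | h7
      · nlinarith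
      · nlinarith
    have : η / 3 = 2 * (4 * Real.log n / n) := by rw [hη]; ring
    rw [this]; linarith
  have hL1 : -(η / 2) ≤ Real.log (ζ ^ 2) := by
    rw [Real.log_pow]
    push_cast
    have h6 : -(6 * Real.log n / n) ≤ Real.log ζ := by
      rw [← neg_div, div_le_iff₀ hn0]
      rcases le_or_gt 0 (Real.log ζ) with h7 | h7
      · nlinarith
      · nlinarith
    have : -(η / 2) = 2 * (-(6 * Real.log n / n)) := by rw [hη]; ring
    rw [this]; linarith
  have hz2 : ζ ^ 2 = 1 + 2 * (c ^ (n - 1)).re + t ^ 2 := by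
    rw [hζ, norm_one_add_sq, norm_pow]
  have hη0 : 0 ≤ η := by
    rw [hη]
    have : 0 ≤ Real.log n := by linarith
    positivity
  have hη1 : η ≤ 24 * (6 * 0.6931471808 / 64) := by
    rw [hη, mul_div_assoc]; gcongr
  have hζ2pos : 0 < ζ ^ 2 := by positivity
  have hA : ζ ^ 2 ≤ 1 + η := by
    have h6 : ζ ^ 2 ≤ Real.exp (η / 3) := by
      rw [← Real.log_le_iff_le_exp hζ2pos]; exact hL2
    have h7 := Real.abs_exp_sub_one_le (x := η / 3) (by
      rw [abs_of_nonneg (by positivity)]; linarith)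
    rw [abs_of_nonneg (by positivity : 0 ≤ η / 3)] at h7
    have h8 := le_abs_self (Real.exp (η / 3) - 1)
    linarith
  have hB : 1 - η ≤ ζ ^ 2 := by
    have h6 : Real.exp (-(η / 2)) ≤ ζ ^ 2 := by
      rw [← Real.le_log_iff_exp_le hζ2pos]; exact hL1
    have h7 := Real.add_one_le_exp (-(η / 2))
    linarith
  refine ⟨?_, h3, ?_⟩
  · rw [div_le_iff₀ (by positivity)]
    have : t * (Real.exp 1 * n) = Real.exp 1 * (n * t) := by ring
    rw [this]; exact h1.le
  · rw [abs_le]
    constructor <;> linarith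

/-- the set of parameters with an attracting cycle -/
def hyp (n : ℕ) : Set ℂ := {c | ∃ m z, IsAttractingCycle (fun z => z ^ n + c) m z}

/-- the main hyperbolic component: parameters with an attracting fixed point -/
def main (n : ℕ) : Set ℂ := {c | ∃ z, IsAttractingCycle (fun z => z ^ n + c) 1 z}

theorem upper {n : ℕ} (hn : 10 ^ 6 ≤ n) :
    volume (multibrotSet n \ hyp n) ≤
      ENNReal.ofReal (70 * Real.log (Real.log n) / n) := by
  have hn' : (10:ℝ) ^ 6 ≤ n := by exact_mod_cast hn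
  have hn0 : (0:ℝ) < n := by linarith
  have hlog2 : 0.6931471803 < Real.log 2 := Real.log_two_gt_d9
  have hlog2' : Real.log 2 < 0.6931471808 := Real.log_two_lt_d9
  have hlogn : 13.1 ≤ Real.log n := by
    have h5 := Real.log_le_log (by norm_num) (show (2:ℝ) ^ 19 ≤ n by norm_num at hn' ⊢; linarith)
    rw [Real.log_pow] at h5
    push_cast at h5
    linarith
  have hsub : multibrotSet n \ hyp n ⊆ U (n - 1) (1 / (Real.exp 1 * n)) (24 * Real.log n / n) := by
    rintro c ⟨hc, hnot⟩
    refine mem_U (by omega) hc ?_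
    rintro ⟨m, z, -, hz⟩
    exact hnot ⟨m, z, hz⟩
  refine (measure_mono hsub).trans ?_
  have hN : 3 ≤ n - 1 := by omega
  have he : Real.exp 1 < 2.7182818286 := Real.exp_one_lt_d9
  have he' : 2.7182818283 < Real.exp 1 := Real.exp_one_gt_d9
  have hτη : 1 / (Real.exp 1 * n) ≤ 24 * Real.log n / n := by
    rw [div_le_div_iff₀ (by positivity) hn0]
    have h5 : 1 ≤ 24 * Real.log n * Real.exp 1 := by nlinarith
    calc 1 * (n:ℝ) ≤ (24 * Real.log n * Real.exp 1) * n := by gcongr
      _ = _ := by ring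
  have hη1 : 24 * Real.log n / n ≤ 1 := by
    rw [div_le_one hn0]
    have h5 : Real.log (n / 10 ^ 6) ≤ n / 10 ^ 6 - 1 := Real.log_le_sub_one_of_pos (by positivity)
    rw [Real.log_div hn0.ne' (by norm_num), Real.log_pow] at h5
    have h6 : Real.log 10 ≤ 4 * Real.log 2 := by
      have h8 := Real.log_le_log (by norm_num) (by norm_num : (10:ℝ) ≤ 2 ^ 4)
      rw [Real.log_pow] at h8
      push_cast at h8
      exact h8
    push_cast at h5
    nlinarith
  refine (area_U hN (by positivity) hτη hη1).trans ?_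
  apply ENNReal.ofReal_le_ofReal
  have hN1 : ((n - 1 : ℕ) : ℝ) = n - 1 := by rw [Nat.cast_sub (by omega)]; simp
  rw [hN1]
  have hlog : Real.log (24 * Real.log n / n / (1 / (Real.exp 1 * n)))
      ≤ 4.5 + Real.log (Real.log n) := by
    have h5 : 24 * Real.log n / n / (1 / (Real.exp 1 * n)) = 24 * Real.exp 1 * Real.log n := by
      field_simp
    rw [h5, Real.log_mul (by positivity) (by linarith), Real.log_mul (by norm_num)
      (Real.exp_pos 1).ne', Real.log_exp]
    have h6 : Real.log 24 ≤ 5 * Real.log 2 := by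
      have h8 := Real.log_le_log (by norm_num) (by norm_num : (24:ℝ) ≤ 2 ^ 5)
      rw [Real.log_pow] at h8
      push_cast at h8
      exact h8
    linarith
  have hLL : 2.07 ≤ Real.log (Real.log n) := by
    have h8 := Real.log_le_log (by norm_num) (show (2:ℝ) ^ 3 ≤ Real.log n by linarith)
    rw [Real.log_pow] at h8
    push_cast at h8
    linarith
  set LL := Real.log (Real.log n) with hLLdef
  have hπ := Real.pi_pos
  have hπ2 : π < 3.15 := Real.pi_lt_d2
  have hn1 : (0:ℝ) < n - 1 := by linarith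
  have h1 : 1 / ((n:ℝ) - 1) ≤ 1.01 / n := by
    rw [div_le_div_iff₀ hn1 hn0]; linarith
  have h2 : 1 / ((n:ℝ) - 1 - 2) ≤ 1.01 / n := by
    rw [div_le_div_iff₀ (by linarith) hn0]; linarith
  have e1 : 2 * π * Real.log (24 * Real.log n / n / (1 / (Real.exp 1 * n))) / (n - 1)
      ≤ 2 * 3.15 * (4.5 + LL) * (1.01 / n) := by
    have : 2 * π * Real.log (24 * Real.log n / n / (1 / (Real.exp 1 * n))) / (n - 1)
      = 2 * π * Real.log (24 * Real.log n / n / (1 / (Real.exp 1 * n))) * (1 / (n - 1)) := by ring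
    have hlog0 : 0 ≤ Real.log (24 * Real.log n / n / (1 / (Real.exp 1 * n))) := by
      apply Real.log_nonneg
      rw [le_div_iff₀ (by positivity), one_mul]
      exact hτη
    rw [this]
    gcongr
  have e2 : 4 * π / ((n:ℝ) - 1) ≤ 4 * 3.15 * (1.01 / n) := by
    have : 4 * π / ((n:ℝ) - 1) = 4 * π * (1 / (n - 1)) := by ring
    rw [this]; gcongr
  have e3 : π / ((n:ℝ) - 1 - 2) ≤ 3.15 * (1.01 / n) := by
    have : π / ((n:ℝ) - 1 - 2) = π * (1 / (n - 1 - 2)) := by ring
    have h0 : 0 ≤ 1 / ((n:ℝ) - 1 - 2) := by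
      apply one_div_nonneg.mpr; linarith
    rw [this]; gcongr
  have e4 : 70 * LL / n = 70 * LL * (1 / n) := by ring
  have e5 : 1.01 / (n:ℝ) = 1.01 * (1 / n) := by ring
  rw [e4]
  rw [e5] at e1 e2 e3
  have hinv : 0 < 1 / (n:ℝ) := by positivity
  have : 2 * 3.15 * (4.5 + LL) * (1.01 * (1 / n)) + 4 * 3.15 * (1.01 * (1 / n))
      + 3.15 * (1.01 * (1 / (n:ℝ))) ≤ 70 * LL * (1 / n) := by
    have h9 : (2 * 3.15 * (4.5 + LL) * 1.01 + 4 * 3.15 * 1.01 + 3.15 * 1.01) * (1 / (n:ℝ))
      ≤ 70 * LL * (1 / n) := by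
      gcongr
      linarith
    linarith
  linarith

end Pool.Agent.H749R2.Area
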