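import Pool.Agent.H749R2.Area3

/-!
# Lower area bound for the part of the Multibrot set outside the main component
-/

set_option autoImplicit false
open MeasureTheory Set Real Filter Metric Bornology
open scoped ENNReal
open N62a1eb23 Pool.Agent.H749R2.Hyp

namespace Pool.Agent.H749R2.Area

/-- a region of parameters with an attracting cycle of period 2 -/
def V (N : ℕ) (τ : ℝ) : Set ℂ :=
  {c | τ ≤ ‖c‖ ^ N ∧ ‖c‖ ^ N ≤ 1 / 4 ∧ (c ^ N).re ≤ -(1 / 4) * ‖c‖ ^ N}

theorem measurableSet_V (N : ℕ) (τ : ℝ) : MeasurableSet (V N τ) := by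
  have h1 : MeasurableSet {c : ℂ | τ ≤ ‖c‖ ^ N} :=
    measurableSet_le measurable_const (by fun_prop)
  have h2 : MeasurableSet {c : ℂ | ‖c‖ ^ N ≤ 1 / 4} :=
    measurableSet_le (by fun_prop) measurable_const
  have h3 : MeasurableSet {c : ℂ | (c ^ N).re ≤ -(1 / 4) * ‖c‖ ^ N} := by
    apply measurableSet_le
    · have : Continuous fun c : ℂ => (c ^ N).re := by fun_prop
      exact this.measurable
    · fun_prop
  exact h1.inter (h2.inter h3)

theorem area_V {N : ℕ} (hN : 1 ≤ N) {τ : ℝ} (hτ : 0 < τ) (hτ' : τ ≤ 1 / 4) :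
    ENNReal.ofReal (π / 6 * ((rt N (1 / 4)) ^ 2 - (rt N τ) ^ 2)) ≤ volume (V N τ) := by
  have hπ := Real.pi_pos
  set a := rt N τ with ha
  set b := rt N (1 / 4) with hb
  have hab : a ≤ b := rt_mono hτ hτ'
  have ha0 : 0 < a := rt_pos _ _
  rw [vol_polar (measurableSet_V N τ)]
  have hint : ∫ x in a..b, x * (π / 3) = π / 6 * (b ^ 2 - a ^ 2) := by
    rw [intervalIntegral.integral_mul_const, integral_id]; ring
  rw [← hint, ← lint_Icc hab (by fun_prop) (fun x hx => by
    have : 0 < x := lt_of_lt_of_le ha0 hx.1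
    positivity)]
  have hsub : Icc a b ⊆ Ioi (0:ℝ) := fun x hx => lt_of_lt_of_le ha0 hx.1
  refine le_trans ?_ (lintegral_mono_set hsub)
  refine setLIntegral_mono' measurableSet_Icc ?_
  intro x hx
  have hx0 : 0 < x := lt_of_lt_of_le ha0 hx.1
  rw [ENNReal.ofReal_mul hx0.le]
  gcongr
  refine (cosset_ge hN).trans (measure_mono ?_)
  rintro φ ⟨h1, h2⟩
  refine ⟨?_, h2⟩
  have h1' : Real.cos (N * φ) ≤ -(1 / 4) := h1
  have hxN : 0 < x ^ N := by positivity
  refine ⟨?_, ?_, ?_⟩
  · rw [norm_pt hx0.le, ← rt_pow hN hτ]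
    exact pow_le_pow_left₀ ha0.le hx.1 N
  · rw [norm_pt hx0.le]
    rw [← rt_pow hN (by norm_num : (0:ℝ) < 1 / 4)]
    exact pow_le_pow_left₀ hx0.le hx.2 N
  · rw [norm_pt hx0.le, pt_pow, re_pt]
    nlinarith

/-- Boundedness of the critical orbit under the period-2 criterion. -/
theorem mem_multibrot_of_P2 {n : ℕ} (hn : 2 ≤ n) {c : ℂ}
    (h1 : 1 ≤ Real.exp 1 * (n * ‖c‖ ^ (n - 1)))
    (h : (n * ‖c‖ ^ (n - 1)) ^ 2 * (‖1 + c ^ (n - 1)‖ + 2 / n) ^ (n - 1) < 1 / 8) :
    c ∈ multibrotSet n := by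
  obtain ⟨ρ, hρ, hmaps⟩ := P2maps hn h1 h
  have key : ∀ j : ℕ, ((f n c)^[2])^[j] c ∈ closedBall c ρ := by
    intro j
    induction j with
    | zero => simpa using hρ
    | succ j ih =>
      rw [Function.iterate_succ_apply']
      exact hmaps ih
  intro htend
  have h2a : Tendsto (fun j : ℕ => 2 * j + 1) atTop atTop :=
    tendsto_atTop_mono (fun j => by simp only [id]; omega) tendsto_id
  have h2 : Tendsto (fun j : ℕ => (fun z => z ^ n + c)^[2 * j + 1] 0) atTop (cobounded ℂ) :=
    htend.comp h2a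
  have h3 : ∀ j : ℕ, (fun z => z ^ n + c)^[2 * j + 1] (0:ℂ) = ((f n c)^[2])^[j] c := by
    intro j
    rw [Function.iterate_succ_apply, Function.iterate_mul]
    simp only [zero_pow (show n ≠ 0 by omega), zero_add]
    rfl
  simp only [h3] at h2
  have h4 : ∀ᶠ j : ℕ in atTop, ((f n c)^[2])^[j] c ∈ (closedBall c ρ)ᶜ :=
    h2.eventually (isBounded_def.mp (isBounded_closedBall (x := c) (r := ρ)))
  obtain ⟨j, hj⟩ := h4.exists
  exact hj (key j)

theorem V_sub {n : ℕ} (hn : 10 ^ 6 ≤ n) : V (n - 1) (170 / n) ⊆ multibrotSet n \ main n := by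
  rintro c ⟨h1, h2, h3⟩
  have hn' : (10:ℝ) ^ 6 ≤ n := by exact_mod_cast hn
  have hn0 : (0:ℝ) < n := by linarith
  have hN1 : ((n - 1 : ℕ) : ℝ) = n - 1 := by rw [Nat.cast_sub (by omega)]; simp
  set t := ‖c‖ ^ (n - 1) with ht
  set ζ := ‖1 + c ^ (n - 1)‖ with hζ
  have hs : 170 ≤ n * t := by
    rw [div_le_iff₀ hn0] at h1; linarith
  have ht0 : 0 < t := lt_of_lt_of_le (by positivity) h1
  have he : Real.exp 1 < 2.7182818286 := Real.exp_one_lt_d9
  have he' : 2.7182818283 < Real.exp 1 := Real.exp_one_gt_d9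
  constructor
  · refine mem_multibrot_of_P2 (by omega) (by nlinarith) ?_
    rw [← ht, ← hζ]
    have hζ0 : 0 ≤ ζ := norm_nonneg _
    have hz2 : ζ ^ 2 ≤ 1 - t / 4 := by
      rw [hζ, norm_one_add_sq, norm_pow, ← ht]
      nlinarith
    have hζlow : 3 / 4 ≤ ζ := by
      have h5 := norm_sub_le (1 + c ^ (n - 1)) (c ^ (n - 1))
      rw [add_sub_cancel_right, norm_one, norm_pow, ← ht, ← hζ] at h5
      linarith
    -- ζ ≤ exp (-t/8)
    have hζe : ζ ≤ Real.exp (-(t / 8)) := by
      have h6 : ζ ^ 2 ≤ (Real.exp (-(t / 8))) ^ 2 := by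
        rw [← Real.exp_nat_mul]
        have h7 := Real.add_one_le_exp ((2:ℕ) * -(t / 8))
        push_cast at h7 ⊢
        linarith
      exact le_of_sq_le_sq h6 (Real.exp_pos _).le
    have hsum : ζ + 2 / n ≤ ζ * (1 + 3 / n) := by
      have : 2 / (n:ℝ) ≤ ζ * (3 / n) := by
        calc 2 / (n:ℝ) ≤ 3 / 4 * (3 / n) := by
              rw [← mul_div_assoc]; gcongr; norm_num
          _ ≤ ζ * (3 / n) := by gcongr
      linarith
    have hpow : (ζ + 2 / n) ^ (n - 1) ≤ Real.exp (-(n * t / 9)) * Real.exp 3 := by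
      calc (ζ + 2 / n) ^ (n - 1) ≤ (ζ * (1 + 3 / n)) ^ (n - 1) := by gcongr
        _ = ζ ^ (n - 1) * (1 + 3 / (n:ℝ)) ^ (n - 1) := mul_pow _ _ _
        _ ≤ (Real.exp (-(t / 8))) ^ (n - 1) * Real.exp 3 := by
          gcongr
          exact one_add_div_pow_le (by omega) (by norm_num) (by omega)
        _ ≤ Real.exp (-(n * t / 9)) * Real.exp 3 := by
          gcongr
          rw [← Real.exp_nat_mul, hN1]
          apply Real.exp_le_exp.mpr
          nlinarith
    set s := n * t with hs'
    -- s² e^{-s/9} e³ < 1/8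
    have hfin : s ^ 2 * (Real.exp (-(s / 9)) * Real.exp 3) < 1 / 8 := by
      have h9 : s / 170 ≤ Real.exp ((s - 170) / 170) := by
        have := Real.add_one_le_exp ((s - 170) / 170)
        linarith
      have h10 : s ^ 2 ≤ 28900 * (Real.exp ((s - 170) / 170)) ^ 2 := by
        have h11 : (s / 170) ^ 2 ≤ (Real.exp ((s - 170) / 170)) ^ 2 := by gcongr
        linarith
      have h12 : (Real.exp ((s - 170) / 170)) ^ 2 * (Real.exp (-(s / 9)) * Real.exp 3)
          ≤ Real.exp (-15) := by
        rw [← Real.exp_nat_mul, ← Real.exp_add, ← Real.exp_add]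
        apply Real.exp_le_exp.mpr
        push_cast
        linarith
      have h13 : (231201:ℝ) ≤ Real.exp 15 := by
        have h14 : Real.exp 15 = (Real.exp 1) ^ 15 := by
          rw [← Real.exp_nat_mul]; norm_num
        rw [h14]
        calc (231201:ℝ) ≤ 2.7182818283 ^ 15 := by norm_num
          _ ≤ (Real.exp 1) ^ 15 := by gcongr
      have h15 : Real.exp (-15) ≤ 1 / 231201 := by
        rw [Real.exp_neg, ← one_div]
        gcongr
      calc s ^ 2 * (Real.exp (-(s / 9)) * Real.exp 3)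
          ≤ (28900 * (Real.exp ((s - 170) / 170)) ^ 2) * (Real.exp (-(s / 9)) * Real.exp 3) := by
            gcongr
        _ = 28900 * ((Real.exp ((s - 170) / 170)) ^ 2 * (Real.exp (-(s / 9)) * Real.exp 3)) := by
            ring
        _ ≤ 28900 * (1 / 231201) := by gcongr; exact h12.trans h15
        _ < 1 / 8 := by norm_num
    calc s ^ 2 * (ζ + 2 / n) ^ (n - 1) ≤ s ^ 2 * (Real.exp (-(s / 9)) * Real.exp 3) := by gcongr
      _ < 1 / 8 := hfin
  · rintro ⟨z, -, hper, -, hder⟩
    have hz : z ^ n + c = z := by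
      have := hper
      rw [Function.IsPeriodicPt, Function.IsFixedPt] at this
      simpa using this
    have hd : ‖(n:ℂ) * z ^ (n - 1)‖ < 1 := by
      have h5 : deriv (fun z : ℂ => z ^ n + c)^[1] z = n * z ^ (n - 1) := by
        rw [Function.iterate_one]; exact deriv_f n c z
      rw [h5] at hder
      exact hder
    rw [norm_mul, Complex.norm_natCast, norm_pow] at hd
    have hcz : c = z * (1 - z ^ (n - 1)) := by
      have h6 : z ^ n = z ^ (n - 1) * z := by
        rw [← pow_succ]; congr 1; omega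
      linear_combination hz - h6
    have hy : ‖z‖ ^ (n - 1) ≤ 1 / n := by
      rw [le_div_iff₀ hn0]; linarith
    have h7 : t ≤ 1 / n * Real.exp 1 := by
      rw [ht, hcz, norm_mul, mul_pow]
      gcongr
      calc ‖1 - z ^ (n - 1)‖ ^ (n - 1) ≤ (1 + 1 / (n:ℝ)) ^ (n - 1) := by
            gcongr
            refine (norm_sub_le _ _).trans ?_
            rw [norm_one, norm_pow]
            linarith
        _ ≤ Real.exp 1 := one_add_div_pow_le (by omega) (by norm_num) (by omega)
    have h8 : n * t ≤ Real.exp 1 := by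
      calc n * t ≤ n * (1 / n * Real.exp 1) := by gcongr
        _ = Real.exp 1 := by field_simp
    linarith

theorem lower {n : ℕ} (hn : 10 ^ 6 ≤ n) :
    ENNReal.ofReal (Real.log n / (4 * n)) ≤ volume (multibrotSet n \ main n) := by
  have hn' : (10:ℝ) ^ 6 ≤ n := by exact_mod_cast hn
  have hn0 : (0:ℝ) < n := by linarith
  have hn1 : (0:ℝ) < n - 1 := by linarith
  have hN1 : ((n - 1 : ℕ) : ℝ) = n - 1 := by rw [Nat.cast_sub (by omega)]; simp
  have hτ' : 170 / (n:ℝ) ≤ 1 / 4 := by
    rw [div_le_div_iff₀ hn0 (by norm_num)]; linarith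
  refine le_trans ?_ ((area_V (N := n - 1) (by omega) (τ := 170 / n) (by positivity) hτ').trans
    (measure_mono (V_sub hn)))
  apply ENNReal.ofReal_le_ofReal
  have hlogn : 13.1 ≤ Real.log n := by
    have hlog2 : 0.6931471803 < Real.log 2 := Real.log_two_gt_d9
    have h5 := Real.log_le_log (by norm_num) (show (2:ℝ) ^ 19 ≤ n by norm_num at hn' ⊢; linarith)
    rw [Real.log_pow] at h5
    push_cast at h5
    linarith
  set a := rt (n - 1) (170 / n) with ha
  set b := rt (n - 1) (1 / 4) with hb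
  have ha0 : 0 < a := rt_pos _ _
  -- b ^ 2 = a ^ 2 * exp (2 log (n / 680) / (n - 1))
  have hb2 : b ^ 2 = a ^ 2 * Real.exp (2 * Real.log (n / 680) / (n - 1)) := by
    rw [hb, ha, rt, rt, ← Real.exp_nat_mul, ← Real.exp_nat_mul, ← Real.exp_add, hN1,
      Real.log_div (by norm_num) (by norm_num), Real.log_div (by norm_num) hn0.ne',
      Real.log_div hn0.ne' (by norm_num), show (680:ℝ) = 170 * 4 by norm_num,
      Real.log_mul (by norm_num) (by norm_num), Real.log_one]
    congr 1
    push_cast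
    ring
  have ha2 : 9 / 10 ≤ a ^ 2 := by
    rw [ha, rt, ← Real.exp_nat_mul, hN1]
    have h6 := Real.add_one_le_exp (((2:ℕ):ℝ) * (Real.log (170 / n) / (n - 1)))
    refine le_trans ?_ h6
    rw [Real.log_div (by norm_num) hn0.ne']
    push_cast
    have h7 : 0 ≤ Real.log 170 := Real.log_nonneg (by norm_num)
    have h8 : Real.log n / (n - 1) ≤ 1 / 20 := by
      rw [div_le_div_iff₀ hn1 (by norm_num)]
      have h5 : Real.log (n / 10 ^ 6) ≤ n / 10 ^ 6 - 1 :=
        Real.log_le_sub_one_of_pos (by positivity)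
      rw [Real.log_div hn0.ne' (by norm_num), Real.log_pow] at h5
      have hlog2' : Real.log 2 < 0.6931471808 := Real.log_two_lt_d9
      have h6 : Real.log 10 ≤ 4 * Real.log 2 := by
        have h8 := Real.log_le_log (by norm_num) (by norm_num : (10:ℝ) ≤ 2 ^ 4)
        rw [Real.log_pow] at h8
        push_cast at h8
        exact h8
      push_cast at h5
      nlinarith
    have h9 : 2 * ((Real.log 170 - Real.log n) / ((n:ℝ) - 1))
      = 2 * (Real.log 170 / (n - 1)) - 2 * (Real.log n / (n - 1)) := by ring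
    rw [h9]
    have h10 : 0 ≤ Real.log 170 / ((n:ℝ) - 1) := by positivity
    linarith
  have hlog680 : Real.log n / 2 ≤ Real.log (n / 680) := by
    rw [Real.log_div hn0.ne' (by norm_num)]
    have h6 : 2 * Real.log 680 ≤ Real.log n := by
      have : 2 * Real.log 680 = Real.log (680 ^ 2) := by rw [Real.log_pow]; norm_num
      rw [this]
      apply Real.log_le_log (by norm_num)
      norm_num at hn' ⊢
      linarith
    linarith
  have h1 := Real.add_one_le_exp (2 * Real.log (n / 680) / ((n:ℝ) - 1))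
  have h2 : a ^ 2 * (2 * Real.log (n / 680) / (n - 1)) ≤ b ^ 2 - a ^ 2 := by
    rw [hb2]
    nlinarith [sq_nonneg a]
  have h3 : Real.log n / n ≤ 2 * Real.log (n / 680) / (n - 1) := by
    rw [div_le_div_iff₀ hn0 hn1]
    nlinarith
  have h4 : 9 / 10 * (Real.log n / n) ≤ b ^ 2 - a ^ 2 := by
    refine le_trans ?_ h2
    have : 0 ≤ Real.log n / n := by positivity
    gcongr
  have hπ : 3.14 < π := Real.pi_gt_d2
  have h5 : 0 ≤ Real.log n / n := by positivity
  calc Real.log n / (4 * n) = 1 / 4 * (Real.log n / n) := by ring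
    _ ≤ 3.14 / 6 * (9 / 10 * (Real.log n / n)) := by nlinarith
    _ ≤ π / 6 * (b ^ 2 - a ^ 2) := by gcongr

theorem hyp_main (n : ℕ) : main n ⊆ hyp n := fun _ ⟨z, hz⟩ => ⟨1, z, hz⟩

/-- The proportion of non-hyperbolic parameters outside the main component. -/
theorem proportion {n : ℕ} (hn : 10 ^ 6 ≤ n) :
    volume (multibrotSet n \ hyp n) ≤
      ENNReal.ofReal (280 * Real.log (Real.log n) / Real.log n)
        * volume (multibrotSet n \ main n) := by
  have hn' : (10:ℝ) ^ 6 ≤ n := by exact_mod_cast hn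
  have hn0 : (0:ℝ) < n := by linarith
  have hlogn : 13.1 ≤ Real.log n := by
    have hlog2 : 0.6931471803 < Real.log 2 := Real.log_two_gt_d9
    have h5 := Real.log_le_log (by norm_num) (show (2:ℝ) ^ 19 ≤ n by norm_num at hn' ⊢; linarith)
    rw [Real.log_pow] at h5
    push_cast at h5
    linarith
  have hLL : 0 ≤ Real.log (Real.log n) := Real.log_nonneg (by linarith)
  calc volume (multibrotSet n \ hyp n) ≤ ENNReal.ofReal (70 * Real.log (Real.log n) / n) := upper hn
    _ = ENNReal.ofReal (280 * Real.log (Real.log n) / Real.log n)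
        * ENNReal.ofReal (Real.log n / (4 * n)) := by
      rw [← ENNReal.ofReal_mul (by positivity)]
      congr 1
      have : Real.log n ≠ 0 := by linarith
      field_simp
      ring
    _ ≤ _ := by gcongr; exact lower hn

/-- Final form, all `n ≥ 16` (trivial for `n < 10 ^ 6`). -/
theorem proportion' {n : ℕ} (hn : 16 ≤ n) :
    volume (multibrotSet n \ hyp n) ≤
      ENNReal.ofReal (280 * Real.log (Real.log n) / Real.log n)
        * volume (multibrotSet n \ main n) := by
  rcases le_or_gt (10 ^ 6) n with h | h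
  · exact proportion h
  · have hn' : (16:ℝ) ≤ n := by exact_mod_cast hn
    have hn2 : (n:ℝ) ≤ 10 ^ 6 := by exact_mod_cast h.le
    have hlog2 : 0.6931471803 < Real.log 2 := Real.log_two_gt_d9
    have hlog2' : Real.log 2 < 0.6931471808 := Real.log_two_lt_d9
    have he : Real.exp 1 < 2.7182818286 := Real.exp_one_lt_d9
    have h1 : Real.exp 1 ≤ Real.log n := by
      have h5 := Real.log_le_log (by norm_num) (show (2:ℝ) ^ 4 ≤ n by norm_num; linarith)
      rw [Real.log_pow] at h5
      push_cast at h5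
      linarith
    have hl0 : 0 < Real.log n := (Real.exp_pos 1).trans_le h1
    have h2 : 1 ≤ Real.log (Real.log n) := by
      rwa [Real.le_log_iff_exp_le hl0]
    have h3 : Real.log n ≤ 14 := by
      have h5 := Real.log_le_log (by linarith) (show (n:ℝ) ≤ 2 ^ 20 by norm_num at hn2 ⊢; linarith)
      rw [Real.log_pow] at h5
      push_cast at h5
      linarith
    have h4 : 1 ≤ ENNReal.ofReal (280 * Real.log (Real.log n) / Real.log n) := by
      rw [ENNReal.one_le_ofReal, le_div_iff₀ hl0]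
      linarith
    calc volume (multibrotSet n \ hyp n) ≤ volume (multibrotSet n \ main n) :=
          measure_mono (sdiff_subset_sdiff_right (hyp_main n))
      _ = 1 * volume (multibrotSet n \ main n) := (one_mul _).symm
      _ ≤ _ := by gcongr

end Pool.Agent.H749R2.Area
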