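import Mathlib
import Pool.Prelude.Def_F_c31e40fa

/-!
# Unicritical polynomials: criteria for attracting cycles of period 1 and 2
-/

set_option autoImplicit false
open Complex Metric Set Filter Topology
open N62a1eb23

namespace Pool.Agent.H749R2.Hyp

/-- Schwarz-Pick for the logarithm of a holomorphic function bounded below. -/
theorem log_schwarz {h : ℂ → ℂ} {c : ℂ} {r m : ℝ} (hr : 0 < r) (hm : 0 < m)
    (hd : DifferentiableOn ℂ h (ball c r)) (hlow : ∀ z ∈ ball c r, m ≤ ‖h z‖) :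
    ‖deriv h c‖ * r ≤ 2 * ‖h c‖ * Real.log (‖h c‖ / m) := by
  have hcm : c ∈ ball c r := mem_ball_self hr
  have hne : ∀ z ∈ ball c r, h z ≠ 0 := fun z hz h0 => by
    have := hlow z hz
    rw [h0, norm_zero] at this
    linarith
  have hd' : DifferentiableOn ℂ (fun z => deriv h z / h z) (ball c r) :=
    (hd.deriv isOpen_ball).div hd hne
  obtain ⟨L, hLc, hL⟩ := hd'.isExactOn_ball.with_val_at c 0
  have hdh : ∀ z ∈ ball c r, HasDerivAt h (deriv h z) z := fun z hz =>
    ((hd z hz).differentiableAt (isOpen_ball.mem_nhds hz)).hasDerivAt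
  have hcd : ∀ z ∈ ball c r, HasDerivAt (fun z => h z * exp (-L z)) 0 z := by
    intro z hz
    have h1 := (hdh z hz).mul ((hL z hz).neg.cexp)
    refine h1.congr_deriv ?_
    have := hne z hz
    field_simp
    simp
  have hconst : ∀ z ∈ ball c r, h z = h c * exp (L z) := by
    intro z hz
    have h2 : (fun z => h z * exp (-L z)) z = (fun z => h z * exp (-L z)) c := by
      apply isOpen_ball.is_const_of_deriv_eq_zero (convex_ball c r).isPreconnected
        (f := fun z => h z * exp (-L z))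
        (fun w hw => (hcd w hw).differentiableAt.differentiableWithinAt)
        (fun w hw => (hcd w hw).deriv) hz hcm
    simp only [hLc, neg_zero, exp_zero, mul_one] at h2
    rw [← h2, mul_assoc, ← exp_add]
    simp
  have hhc : 0 < ‖h c‖ := norm_pos_iff.mpr (hne c hcm)
  set a : ℝ := Real.log (‖h c‖ / m) with ha
  have hre : ∀ z ∈ ball c r, -a ≤ (L z).re := by
    intro z hz
    have h1 := hlow z hz
    rw [hconst z hz, norm_mul, norm_exp] at h1
    have h2 : m / ‖h c‖ ≤ Real.exp (L z).re := by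
      rw [div_le_iff₀ hhc]; linarith [mul_comm ‖h c‖ (Real.exp (L z).re)]
    have h3 := Real.log_le_log (by positivity) h2
    rw [Real.log_exp] at h3
    have h4 : Real.log (m / ‖h c‖) = -a := by
      rw [ha, ← Real.log_inv, inv_div]
    linarith
  have ha0 : 0 ≤ a := by
    have := hre c hcm
    rw [hLc] at this
    simp at this
    exact this
  have hLder : HasDerivAt L (deriv h c / h c) c := hL c hcm
  -- Schwarz for every a' > a
  have key : ∀ a' : ℝ, a < a' → ‖deriv h c / h c‖ ≤ 2 * a' / r := by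
    intro a' ha'
    have ha'0 : 0 < a' := lt_of_le_of_lt ha0 ha'
    have hden : ∀ z ∈ ball c r, L z + 2 * a' ≠ 0 := by
      intro z hz h0
      have h1 := congrArg Complex.re h0
      simp at h1
      have := hre z hz
      linarith
    have hφd : DifferentiableOn ℂ (fun z => L z / (L z + 2 * a')) (ball c r) := by
      intro z hz
      exact (((hL z hz).differentiableAt.div ((hL z hz).differentiableAt.add_const _)
        (hden z hz))).differentiableWithinAt
    have hmaps : MapsTo (fun z => L z / (L z + 2 * a')) (ball c r)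
        (ball ((fun z => L z / (L z + 2 * a')) c) 1) := by
      intro z hz
      simp only [hLc, zero_div, mem_ball, dist_zero_right, norm_div]
      have hpos : 0 < ‖L z + 2 * a'‖ := norm_pos_iff.mpr (hden z hz)
      rw [div_lt_one hpos]
      have h1 := hre z hz
      have h2 : ‖L z‖ ^ 2 < ‖L z + 2 * a'‖ ^ 2 := by
        rw [← normSq_eq_norm_sq, ← normSq_eq_norm_sq, normSq_apply, normSq_apply]
        simp
        nlinarith
      exact lt_of_pow_lt_pow_left₀ 2 (norm_nonneg _) h2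
    have hs := norm_deriv_le_div_of_mapsTo_ball hφd (hmaps.mono_right ball_subset_closedBall) hr
    have hder : deriv (fun z => L z / (L z + 2 * a')) c = (deriv h c / h c) / (2 * a') := by
      have h1 : HasDerivAt (fun z => L z / (L z + 2 * a')) _ c :=
        hLder.div (hLder.add_const (2 * (a' : ℂ))) (hden c hcm)
      rw [h1.deriv]
      rw [hLc]
      have : (a' : ℂ) ≠ 0 := by exact_mod_cast ha'0.ne'
      field_simp
      ring
    rw [hder, norm_div] at hs
    have hn : ‖(2 * (a' : ℂ))‖ = 2 * a' := by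
      rw [norm_mul, Complex.norm_real]
      simp [abs_of_pos ha'0]
    rw [hn, div_le_iff₀ (by positivity)] at hs
    calc ‖deriv h c / h c‖ ≤ 1 / r * (2 * a') := hs
      _ = 2 * a' / r := by ring
  have h5 : ‖deriv h c / h c‖ * r ≤ 2 * a := by
    have h6 : ‖deriv h c / h c‖ * r / 2 ≤ a := by
      refine le_of_forall_gt_imp_ge_of_dense fun a' ha' => ?_
      have := key a' ha'
      rw [le_div_iff₀ hr] at this
      linarith
    linarith
  rw [norm_div] at h5
  have h7 : ‖deriv h c‖ / ‖h c‖ * r * ‖h c‖ = ‖deriv h c‖ * r := by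
    field_simp
  nlinarith

/-- A holomorphic contraction of a closed ball has a fixed point with small multiplier. -/
theorem fixed_of_contr {g : ℂ → ℂ} {c : ℂ} {ρ q : ℝ} (hρ : 0 ≤ ρ) (hq0 : 0 ≤ q) (hq : q < 1)
    (hd : Differentiable ℂ g) (hm : MapsTo g (closedBall c ρ) (closedBall c ρ))
    (hder : ∀ z ∈ closedBall c ρ, ‖deriv g z‖ ≤ q) :
    ∃ z ∈ closedBall c ρ, g z = z ∧ ‖deriv g z‖ < 1 := by
  have hlip : LipschitzOnWith ⟨q, hq0⟩ g (closedBall c ρ) := by
    refine LipschitzOnWith.of_dist_le_mul fun x hx y hy => ?_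
    rw [dist_eq_norm, dist_eq_norm]
    have := (convex_closedBall c ρ).norm_image_sub_le_of_norm_deriv_le
      (f := g) (C := q) (fun z _ => hd z) hder hy hx
    exact this
  have hcon : ContractingWith ⟨q, hq0⟩ (hm.restrict g _ _) := by
    refine ⟨by exact_mod_cast hq, ?_⟩
    intro x y
    have := hlip x.2 y.2
    exact this
  obtain ⟨y, hy, hfix, -⟩ := ContractingWith.exists_fixedPoint' (f := g)
    (isClosed_closedBall.isComplete) hm hcon (x := c) (mem_closedBall_self hρ)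
    (edist_ne_top _ _)
  exact ⟨y, hy, hfix, (hder y hy).trans_lt hq⟩

theorem pow_sub_pow_le (c w : ℂ) (n : ℕ) :
    ‖(c + w) ^ n - c ^ n‖ ≤ (‖c‖ + ‖w‖) ^ n - ‖c‖ ^ n := by
  induction n with
  | zero => simp
  | succ n ih =>
    have h1 : (c + w) ^ (n + 1) - c ^ (n + 1) = (c + w) * ((c + w) ^ n - c ^ n) + w * c ^ n := by
      ring
    rw [h1]
    calc ‖(c + w) * ((c + w) ^ n - c ^ n) + w * c ^ n‖
        ≤ ‖c + w‖ * ‖(c + w) ^ n - c ^ n‖ + ‖w‖ * ‖c‖ ^ n := by
          refine (norm_add_le _ _).trans ?_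
          rw [norm_mul, norm_mul, norm_pow]
      _ ≤ (‖c‖ + ‖w‖) * ((‖c‖ + ‖w‖) ^ n - ‖c‖ ^ n) + ‖w‖ * ‖c‖ ^ n := by
          gcongr
          exact norm_add_le _ _
      _ = _ := by ring

theorem one_add_div_pow_le {n : ℕ} {θ : ℝ} (hn : 0 < n) (hθ : 0 ≤ θ) {k : ℕ} (hk : k ≤ n) :
    (1 + θ / n) ^ k ≤ Real.exp θ := by
  have hn' : (0:ℝ) < n := by exact_mod_cast hn
  have h1 : 1 + θ / n ≤ Real.exp (θ / n) := by
    have := Real.add_one_le_exp (θ / n); linarith
  have h2 : (1:ℝ) ≤ 1 + θ / n := by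
    have : 0 ≤ θ / n := by positivity
    linarith
  calc (1 + θ / n) ^ k ≤ (1 + θ / n) ^ n := pow_le_pow_right₀ h2 hk
    _ ≤ (Real.exp (θ / n)) ^ n := by gcongr
    _ = Real.exp θ := by
      rw [← Real.exp_nat_mul]
      congr 1
      field_simp

/-- `f_c` -/
def f (n : ℕ) (c : ℂ) : ℂ → ℂ := fun z => z ^ n + c

theorem hasDerivAt_f (n : ℕ) (c z : ℂ) : HasDerivAt (f n c) (n * z ^ (n - 1)) z := by
  have := (hasDerivAt_pow n z).add_const c
  exact this

theorem differentiable_f (n : ℕ) (c : ℂ) : Differentiable ℂ (f n c) :=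
  fun z => (hasDerivAt_f n c z).differentiableAt

theorem deriv_f (n : ℕ) (c z : ℂ) : deriv (f n c) z = n * z ^ (n - 1) :=
  (hasDerivAt_f n c z).deriv

/-- Attracting fixed points. -/
theorem P1 {n : ℕ} (hn : 2 ≤ n) {c : ℂ} (h : Real.exp 1 * (n * ‖c‖ ^ (n - 1)) ≤ 1) :
    ∃ z, IsAttractingCycle (fun z => z ^ n + c) 1 z := by
  have hn' : (2:ℝ) ≤ n := by exact_mod_cast hn
  have hn0 : (0:ℝ) < n := by linarith
  set x := ‖c‖ with hx
  have hx0 : 0 ≤ x := norm_nonneg _
  set ρ : ℝ := x * (1 + 1 / n) with hρ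
  have hρ0 : 0 ≤ ρ := by positivity
  set q : ℝ := Real.exp (-(1 / n : ℝ)) with hq
  have hq1 : q < 1 := by
    rw [hq, Real.exp_lt_one_iff]
    have : (0:ℝ) < 1 / n := by positivity
    linarith
  have hnt : n * x ^ (n - 1) ≤ Real.exp (-1) := by
    rw [Real.exp_neg, ← one_div, le_div_iff₀ (Real.exp_pos 1)]
    linarith [mul_comm (Real.exp 1) (n * x ^ (n - 1))]
  have hxn : x ^ n = x * x ^ (n - 1) := by
    conv_lhs => rw [show n = (n - 1) + 1 by omega]
    rw [pow_succ]; ring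
  have hmaps : MapsTo (f n c) (closedBall 0 ρ) (closedBall 0 ρ) := by
    intro z hz
    rw [mem_closedBall, dist_zero_right] at hz ⊢
    have h1 : ‖f n c z‖ ≤ ρ ^ n + x := by
      unfold f
      refine (norm_add_le _ _).trans ?_
      rw [norm_pow]
      gcongr
    have h2 : ρ ^ n ≤ x / n := by
      rw [hρ, mul_pow]
      have h3 : (1 + 1 / (n:ℝ)) ^ n ≤ Real.exp 1 := by
        simpa using one_add_div_pow_le (n := n) (θ := 1) (by omega) (by norm_num) le_rfl
      calc x ^ n * (1 + 1 / (n:ℝ)) ^ n ≤ x ^ n * Real.exp 1 := by gcongr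
        _ = x / n * (Real.exp 1 * (n * x ^ (n - 1))) := by rw [hxn]; field_simp
        _ ≤ x / n * 1 := by gcongr
        _ = x / n := by ring
    calc ‖f n c z‖ ≤ ρ ^ n + x := h1
      _ ≤ x / n + x := by linarith
      _ = ρ := by rw [hρ]; field_simp; ring
  have hder : ∀ z ∈ closedBall (0:ℂ) ρ, ‖deriv (f n c) z‖ ≤ q := by
    intro z hz
    rw [mem_closedBall, dist_zero_right] at hz
    rw [deriv_f, norm_mul, norm_pow]
    simp only [norm_natCast]
    have h3 : (1 + 1 / (n:ℝ)) ^ (n - 1) ≤ Real.exp (1 - 1 / n) := by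
      have h1 : 1 + 1 / (n:ℝ) ≤ Real.exp (1 / n) := by
        have := Real.add_one_le_exp (1 / (n:ℝ)); linarith
      calc (1 + 1 / (n:ℝ)) ^ (n - 1) ≤ (Real.exp (1 / n)) ^ (n - 1) := by gcongr
        _ = Real.exp (1 - 1 / n) := by
          rw [← Real.exp_nat_mul]
          congr 1
          rw [Nat.cast_sub (by omega)]
          field_simp
          simp
    calc (n:ℝ) * ‖z‖ ^ (n - 1) ≤ n * ρ ^ (n - 1) := by gcongr
      _ = (n * x ^ (n - 1)) * (1 + 1 / (n:ℝ)) ^ (n - 1) := by rw [hρ, mul_pow]; ring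
      _ ≤ Real.exp (-1) * Real.exp (1 - 1 / n) := by gcongr
      _ = q := by rw [← Real.exp_add, hq]; congr 1; ring
  obtain ⟨z, -, hz1, hz2⟩ := fixed_of_contr hρ0 (Real.exp_pos _).le hq1 (differentiable_f n c)
    hmaps hder
  refine ⟨z, Nat.one_pos, ?_, ?_, ?_⟩
  · show (f n c)^[1] z = z
    simpa using hz1
  · show DifferentiableAt ℂ (f n c)^[1] z
    simpa using differentiable_f n c z
  · show ‖deriv (f n c)^[1] z‖ < 1
    simpa using hz2

theorem norm_cn {n : ℕ} (hn : 2 ≤ n) (c : ℂ) :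
    ‖c ^ n + c‖ = ‖c‖ * ‖1 + c ^ (n - 1)‖ := by
  rw [← norm_mul]
  congr 1
  conv_lhs => rw [show n = (n - 1) + 1 by omega]
  rw [pow_succ]; ring

/-- The ball mapped into itself by the second iterate. -/
theorem P2core {n : ℕ} (hn : 2 ≤ n) {c : ℂ} (h1 : 1 ≤ Real.exp 1 * (n * ‖c‖ ^ (n - 1)))
    (h : (n * ‖c‖ ^ (n - 1)) ^ 2 * (‖1 + c ^ (n - 1)‖ + 2 / n) ^ (n - 1) < 1 / 8) :
    ∃ ρ : ℝ, 0 < ρ ∧ MapsTo (f n c)^[2] (closedBall c ρ) (closedBall c ρ) ∧
      ∀ z ∈ closedBall c ρ, ‖deriv (f n c)^[2] z‖ ≤ 1 / 2 := by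
  have hn' : (2:ℝ) ≤ n := by exact_mod_cast hn
  have hn0 : (0:ℝ) < n := by linarith
  set x := ‖c‖ with hx
  set s := n * x ^ (n - 1) with hs
  set a := ‖1 + c ^ (n - 1)‖ + 2 / n with ha
  have he : Real.exp 1 < 2.7182818286 := Real.exp_one_lt_d9
  have hx0 : 0 < x := by
    rcases (norm_nonneg c).lt_or_eq with h0 | h0
    · exact h0
    · exfalso
      rw [hs, hx, ← h0, zero_pow (by omega)] at h1
      norm_num at h1
  have hs0 : 0 < s := by positivity
  have ha0 : 0 ≤ a := by positivity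
  have hs1 : 1 ≤ 2.7182818286 * s := by nlinarith
  -- a ≤ 2
  have ha2 : a ≤ 2 := by
    by_contra hcon
    push Not at hcon
    have h2 : (2:ℝ) ≤ a ^ (n - 1) := by
      calc (2:ℝ) = 2 ^ 1 := by norm_num
        _ ≤ 2 ^ (n - 1) := pow_le_pow_right₀ (by norm_num) (by omega)
        _ ≤ a ^ (n - 1) := by gcongr
    have h3 : (1:ℝ) / 8 ≤ s ^ 2 := by nlinarith
    nlinarith [mul_le_mul h3 h2 (by norm_num) (by positivity)]
  have han : a ^ n = a * a ^ (n - 1) := by
    conv_lhs => rw [show n = (n - 1) + 1 by omega]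
    rw [pow_succ]; ring
  have hxn : x ^ n = x * x ^ (n - 1) := by
    conv_lhs => rw [show n = (n - 1) + 1 by omega]
    rw [pow_succ]; ring
  have hI : s * (1 + s) * a ^ n ≤ 1 := by
    have h2 : 1 + s ≤ 4 * s := by nlinarith
    calc s * (1 + s) * a ^ n ≤ s * (4 * s) * (2 * a ^ (n - 1)) := by
          rw [han]; gcongr
      _ = 8 * (s ^ 2 * a ^ (n - 1)) := by ring
      _ ≤ 1 := by linarith
  set θ : ℝ := 1 / (1 + s) with hθ
  have hθ0 : 0 < θ := by positivity
  have hθ1 : θ ≤ 1 := by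
    rw [hθ, div_le_one (by positivity)]; linarith
  set ρ : ℝ := x * (θ / n) with hρ
  have hρ0 : 0 < ρ := by positivity
  have hz : ∀ z ∈ closedBall c ρ, ‖z‖ ≤ x * (1 + θ / n) := by
    intro z hz
    rw [mem_closedBall, dist_eq_norm] at hz
    calc ‖z‖ = ‖c + (z - c)‖ := by ring_nf
      _ ≤ ‖c‖ + ‖z - c‖ := norm_add_le _ _
      _ ≤ x + ρ := by gcongr
      _ = _ := by rw [hρ]; ring
  have hfz : ∀ z ∈ closedBall c ρ, ‖f n c z‖ ≤ x * a := by
    intro z hz
    rw [mem_closedBall, dist_eq_norm] at hz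
    have h2 : ‖z ^ n - c ^ n‖ ≤ x ^ n * (2 * θ) := by
      have h3 := pow_sub_pow_le c (z - c) n
      rw [add_sub_cancel] at h3
      have h4 : (‖c‖ + ‖z - c‖) ^ n ≤ x ^ n * (1 + 2 * θ) := by
        calc (‖c‖ + ‖z - c‖) ^ n ≤ (x + ρ) ^ n := by gcongr
          _ = x ^ n * (1 + θ / n) ^ n := by rw [← mul_pow]; congr 1; rw [hρ]; ring
          _ ≤ x ^ n * Real.exp θ := by
            gcongr; exact one_add_div_pow_le (by omega) hθ0.le le_rfl
          _ ≤ x ^ n * (1 + 2 * θ) := by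
            gcongr
            have := Real.abs_exp_sub_one_le (x := θ) (by rw [abs_of_pos hθ0]; exact hθ1)
            rw [abs_of_pos hθ0] at this
            have h5 := le_abs_self (Real.exp θ - 1)
            linarith
      nlinarith
    have h6 : x ^ n * (2 * θ) ≤ x * (2 / n) := by
      have h7 : x ^ (n - 1) * θ ≤ 1 / n := by
        rw [hθ, mul_one_div, div_le_div_iff₀ (by positivity) hn0]
        rw [hs]; linarith [mul_comm (x ^ (n-1)) (n:ℝ)]
      calc x ^ n * (2 * θ) = 2 * x * (x ^ (n - 1) * θ) := by rw [hxn]; ring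
        _ ≤ 2 * x * (1 / n) := by gcongr
        _ = x * (2 / n) := by ring
    calc ‖f n c z‖ = ‖(z ^ n - c ^ n) + (c ^ n + c)‖ := by unfold f; ring_nf
      _ ≤ ‖z ^ n - c ^ n‖ + ‖c ^ n + c‖ := norm_add_le _ _
      _ ≤ x * (2 / n) + x * ‖1 + c ^ (n - 1)‖ := by
        rw [norm_cn hn]
        linarith
      _ = x * a := by rw [ha]; ring
  have hmaps : MapsTo (f n c)^[2] (closedBall c ρ) (closedBall c ρ) := by
    intro z hz
    rw [mem_closedBall, dist_eq_norm]
    have h2 : (f n c)^[2] z - c = (f n c z) ^ n := by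
      simp [Function.iterate_succ, f]
    rw [h2, norm_pow]
    calc ‖f n c z‖ ^ n ≤ (x * a) ^ n := by gcongr; exact hfz z hz
      _ = (x / (n * (1 + s))) * (s * (1 + s) * a ^ n) := by
        rw [mul_pow, hxn, hs]; field_simp
      _ ≤ (x / (n * (1 + s))) * 1 := by gcongr
      _ = ρ := by rw [hρ, hθ]; field_simp
  have hd2 : Differentiable ℂ (f n c)^[2] := (differentiable_f n c).iterate 2
  have hder2 : ∀ z, deriv (f n c)^[2] z = (n * (f n c z) ^ (n - 1)) * (n * z ^ (n - 1)) := by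
    intro z
    have h2 := (hasDerivAt_f n c (f n c z)).comp z (hasDerivAt_f n c z)
    exact h2.deriv
  have hder : ∀ z ∈ closedBall c ρ, ‖deriv (f n c)^[2] z‖ ≤ 1 / 2 := by
    intro z hzm
    rw [hder2, norm_mul, norm_mul, norm_mul, norm_pow, norm_pow]
    simp only [norm_natCast]
    have h3 : (1 + θ / (n:ℝ)) ^ (n - 1) ≤ Real.exp 1 :=
      (one_add_div_pow_le (by omega) hθ0.le (by omega)).trans (Real.exp_le_exp.mpr hθ1)
    calc (n:ℝ) * ‖f n c z‖ ^ (n - 1) * (n * ‖z‖ ^ (n - 1))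
        ≤ (n:ℝ) * (x * a) ^ (n - 1) * (n * (x * (1 + θ / n)) ^ (n - 1)) := by
          gcongr
          · exact hfz z hzm
          · exact hz z hzm
      _ = (s ^ 2 * a ^ (n - 1)) * (1 + θ / n) ^ (n - 1) := by
          rw [mul_pow, mul_pow, hs]; ring
      _ ≤ (1 / 8) * Real.exp 1 := by gcongr
      _ ≤ 1 / 2 := by linarith
  exact ⟨ρ, hρ0, hmaps, hder⟩

/-- Attracting cycles of period 2. -/
theorem P2 {n : ℕ} (hn : 2 ≤ n) {c : ℂ} (h1 : 1 ≤ Real.exp 1 * (n * ‖c‖ ^ (n - 1)))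
    (h : (n * ‖c‖ ^ (n - 1)) ^ 2 * (‖1 + c ^ (n - 1)‖ + 2 / n) ^ (n - 1) < 1 / 8) :
    ∃ z, IsAttractingCycle (fun z => z ^ n + c) 2 z := by
  obtain ⟨ρ, hρ0, hmaps, hder⟩ := P2core hn h1 h
  have hd2 : Differentiable ℂ (f n c)^[2] := (differentiable_f n c).iterate 2
  obtain ⟨z, -, hz1, hz2⟩ := fixed_of_contr hρ0.le (by norm_num) (by norm_num : (1:ℝ)/2 < 1) hd2
    hmaps hder
  exact ⟨z, two_pos, hz1, hd2 z, hz2⟩

theorem P2maps {n : ℕ} (hn : 2 ≤ n) {c : ℂ} (h1 : 1 ≤ Real.exp 1 * (n * ‖c‖ ^ (n - 1)))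
    (h : (n * ‖c‖ ^ (n - 1)) ^ 2 * (‖1 + c ^ (n - 1)‖ + 2 / n) ^ (n - 1) < 1 / 8) :
    ∃ ρ : ℝ, 0 ≤ ρ ∧ MapsTo (f n c)^[2] (closedBall c ρ) (closedBall c ρ) := by
  obtain ⟨ρ, hρ0, hmaps, -⟩ := P2core hn h1 h
  exact ⟨ρ, hρ0.le, hmaps⟩

end Pool.Agent.H749R2.Hyp
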